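import Mathlib

/-!
Tracial W*-dynamical systems, the basic construction, and relatively discrete spectrum.
-/

set_option autoImplicit false

open scoped InnerProductSpace ENNReal

namespace Pool.Agent.R298.BC

section general

variable {H : Type} [NormedAddCommGroup H] [InnerProductSpace ℂ H] [CompleteSpace H]

/-- The closed linear span of a set of vectors. -/
def gen (D : Set H) : Submodule ℂ H := (Submodule.span ℂ D).topologicalClosure

instance (D : Set H) : (gen D).HasOrthogonalProjection := by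
  have : CompleteSpace (gen D) :=
    (Submodule.isClosed_topologicalClosure (Submodule.span ℂ D)).completeSpace_coe
  infer_instance

/-- The commutant of a set of operators and of their adjoints, as a von Neumann algebra. -/
noncomputable def commVN (D : Set (H →L[ℂ] H)) : VonNeumannAlgebra H where
  toStarSubalgebra := StarSubalgebra.centralizer ℂ D
  centralizer_centralizer' := by
    show Set.centralizer (Set.centralizer (Set.centralizer (D ∪ star D))) = _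
    exact Set.centralizer_centralizer_centralizer _

/-- The von Neumann algebra generated by a set of operators (the double commutant). -/
noncomputable def vnGen (D : Set (H →L[ℂ] H)) : VonNeumannAlgebra H := (commVN D).commutant

/-- `α` restricts to a `*`-automorphism of `A`. -/
structure IsAut (A : VonNeumannAlgebra H) (α : (H →L[ℂ] H) → (H →L[ℂ] H)) : Prop where
  mem : ∀ a ∈ A, α a ∈ A
  inj : ∀ a ∈ A, ∀ b ∈ A, α a = α b → a = b
  surj : ∀ b ∈ A, ∃ a ∈ A, α a = b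
  add : ∀ a ∈ A, ∀ b ∈ A, α (a + b) = α a + α b
  mul : ∀ a ∈ A, ∀ b ∈ A, α (a * b) = α a * α b
  smul : ∀ c : ℂ, ∀ a ∈ A, α (c • a) = c • α a
  star_eq : ∀ a ∈ A, α (star a) = star (α a)

end general

/-- A system `𝐀 = (A, μ, α)`, represented on the GNS space `H` of the faithful normal tracial state
`μ(a) = ⟪Ω, a Ω⟫`, with cyclic and separating unit vector `Ω`; `α` (only its values
on `A` matter) is a `*`-automorphism of `A` with `μ ∘ α = μ`, `U` is the unitary with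
`U a Ω = α(a) Ω` and `J` the modular conjugation, `J a Ω = a* Ω`. -/
structure Sys (H : Type) [NormedAddCommGroup H] [InnerProductSpace ℂ H] [CompleteSpace H] where
  A : VonNeumannAlgebra H
  Ω : H
  norm_Ω : ‖Ω‖ = 1
  cyclic : Dense {v : H | ∃ a ∈ A, a Ω = v}
  separating : ∀ a ∈ A, a Ω = 0 → a = 0
  tracial : ∀ a ∈ A, ∀ b ∈ A, ⟪Ω, (a * b) Ω⟫_ℂ = ⟪Ω, (b * a) Ω⟫_ℂ
  α : (H →L[ℂ] H) → (H →L[ℂ] H)
  aut : IsAut A α
  α_inv : ∀ a ∈ A, ⟪Ω, α a Ω⟫_ℂ = ⟪Ω, a Ω⟫_ℂ
  U : H ≃ₗᵢ[ℂ] H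
  U_spec : ∀ a ∈ A, U (a Ω) = α a Ω
  J : H ≃ₗᵢ⋆[ℂ] H
  J_spec : ∀ a ∈ A, J (a Ω) = star a Ω

variable {H : Type} [NormedAddCommGroup H] [InnerProductSpace ℂ H] [CompleteSpace H]

/-- `F` is (the algebra of) a subsystem of `S`: `F ⊆ A` and `α(F) = F`. -/
structure IsSub (S : Sys H) (F : VonNeumannAlgebra H) : Prop where
  le : ∀ x ∈ F, x ∈ S.A
  image : ∀ x, x ∈ F ↔ ∃ f ∈ F, S.α f = x

/-- `H_F`, the closure of `F Ω`. -/
def Sys.sp (S : Sys H) (F : VonNeumannAlgebra H) : Submodule ℂ H :=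
  gen {v | ∃ f ∈ F, f S.Ω = v}

noncomputable instance (S : Sys H) (F : VonNeumannAlgebra H) : (S.sp F).HasOrthogonalProjection :=
  inferInstanceAs ((gen {v | ∃ f ∈ F, f S.Ω = v}).HasOrthogonalProjection)

/-- `e_F`, the projection onto `H_F`. -/
noncomputable def Sys.e (S : Sys H) (F : VonNeumannAlgebra H) : H →L[ℂ] H :=
  (S.sp F).starProjection

/-- The basic construction `⟨A, e_F⟩`, the von Neumann algebra generated by `A` and `e_F`. -/
noncomputable def Sys.basic (S : Sys H) (F : VonNeumannAlgebra H) : VonNeumannAlgebra H :=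
  vnGen ({x | x ∈ S.A} ∪ {S.e F})

/-- `τ` (restricted to the positive elements of `⟨A, e_F⟩`) is the trace `μ̄`: a faithful, normal,
semifinite trace with `μ̄(a e_F a*) = μ(a a*)` for `a ∈ A`; by polarisation the latter says
`μ̄(a e_F b) = μ(a b)` for `a, b ∈ A`. -/
structure IsBar (S : Sys H) (F : VonNeumannAlgebra H) (τ : (H →L[ℂ] H) → ℝ≥0∞) : Prop where
  add : ∀ x ∈ S.basic F, ∀ y ∈ S.basic F, 0 ≤ x → 0 ≤ y → τ (x + y) = τ x + τ y
  smul : ∀ x ∈ S.basic F, 0 ≤ x → ∀ c : NNReal, τ (((c : ℝ) : ℂ) • x) = c * τ x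
  trace : ∀ x ∈ S.basic F, τ (star x * x) = τ (x * star x)
  normal : ∀ D : Set (H →L[ℂ] H), (∀ x ∈ D, x ∈ S.basic F ∧ 0 ≤ x) → D.Nonempty →
    DirectedOn (· ≤ ·) D → ∀ x ∈ S.basic F, IsLUB D x → τ x = ⨆ y ∈ D, τ y
  faithful : ∀ x ∈ S.basic F, 0 ≤ x → τ x = 0 → x = 0
  semifinite : ∀ x ∈ S.basic F, 0 ≤ x → x ≠ 0 → ∃ y ∈ S.basic F, 0 ≤ y ∧ y ≤ x ∧ y ≠ 0 ∧ τ y < ⊤
  bar : ∀ a ∈ S.A, τ (a * S.e F * star a) = ENNReal.ofReal (⟪S.Ω, (a * star a) S.Ω⟫_ℂ).re

/-- `V` is a `U`-`μ̄`-module: a closed subspace `V` of `H ⊖ H_F` with `J f* J V ⊆ V` for `f ∈ F`,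
`U V = V` and `μ̄(P_V) < ∞`. -/
structure IsUModule (S : Sys H) (F : VonNeumannAlgebra H) (τ : (H →L[ℂ] H) → ℝ≥0∞)
    (V : ClosedSubmodule ℂ H) : Prop where
  right : ∀ f ∈ F, ∀ v ∈ V, S.J ((star f) (S.J v)) ∈ V
  orth : V.toSubmodule ≤ (S.sp F)ᗮ
  inv : V.toSubmodule.map (S.U.toLinearEquiv : H →ₗ[ℂ] H) = V.toSubmodule
  fin : τ (V.toSubmodule.starProjection) < ⊤

/-- `𝐀` is an isometric extension of `𝐅`: the closed linear span of all `U`-`μ̄`-modules is
`H ⊖ H_F`. -/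
def IsometricExt (S : Sys H) (F : VonNeumannAlgebra H) (τ : (H →L[ℂ] H) → ℝ≥0∞) : Prop :=
  (⨆ (V : ClosedSubmodule ℂ H) (_ : IsUModule S F τ V), V.toSubmodule).topologicalClosure =
    (S.sp F)ᗮ

end Pool.Agent.R298.BC
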