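import Mathlib
import Pool.Agent.R298.BC.Defs

/-!
General facts on projections, commutants and functional calculus.
-/

set_option autoImplicit false
set_option linter.unusedSectionVars false
set_option linter.unusedVariables false

open scoped InnerProductSpace ENNReal

namespace Pool.Agent.R298.BC

variable {H : Type} [NormedAddCommGroup H] [InnerProductSpace ℂ H] [CompleteSpace H]

lemma inner_star (T : H →L[ℂ] H) (ξ η : H) : ⟪T ξ, η⟫_ℂ = ⟪ξ, star T η⟫_ℂ := by
  rw [ContinuousLinearMap.star_eq_adjoint, ContinuousLinearMap.adjoint_inner_right]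

lemma inner_star' (T : H →L[ℂ] H) (ξ η : H) : ⟪ξ, T η⟫_ℂ = ⟪star T ξ, η⟫_ℂ := by
  rw [inner_star, star_star]

lemma star_eq_of_inner {T S : H →L[ℂ] H} (h : ∀ ξ η, ⟪T ξ, η⟫_ℂ = ⟪ξ, S η⟫_ℂ) : star T = S := by
  ext v
  refine ext_inner_left ℂ fun w => ?_
  rw [← inner_star, h]

lemma mem_comm {N : VonNeumannAlgebra H} {z : H →L[ℂ] H} :
    z ∈ N.commutant ↔ ∀ x ∈ N, x * z = z * x := VonNeumannAlgebra.mem_commutant_iff

lemma mem_of_comm (N : VonNeumannAlgebra H) {x : H →L[ℂ] H}
    (h : ∀ y ∈ N.commutant, y * x = x * y) : x ∈ N := by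
  rw [← VonNeumannAlgebra.commutant_commutant (S := N), mem_comm]
  exact h

lemma mem_commVN {D : Set (H →L[ℂ] H)} {x : H →L[ℂ] H} :
    x ∈ commVN D ↔ ∀ d ∈ D, d * x = x * d ∧ star d * x = x * star d := by
  have h1 : x ∈ commVN D ↔ x ∈ Set.centralizer (D ∪ star D) := Iff.rfl
  rw [h1, Set.mem_centralizer_iff]
  constructor
  · intro h d hd
    exact ⟨h d (Or.inl hd), h (star d) (Or.inr (by simpa using hd))⟩
  · rintro h d (hd | hd)
    · exact (h d hd).1
    · have := (h (star d) hd).2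
      rwa [star_star] at this

lemma subset_vnGen {D : Set (H →L[ℂ] H)} {x : H →L[ℂ] H} (hx : x ∈ D) : x ∈ vnGen D := by
  unfold vnGen
  rw [mem_comm]
  intro y hy
  exact ((mem_commVN.1 hy) x hx).1.symm

section gen

lemma subset_gen {D : Set H} {v : H} (hv : v ∈ D) : v ∈ gen D :=
  Submodule.le_topologicalClosure _ (Submodule.subset_span hv)

lemma isClosed_gen (D : Set H) : IsClosed (gen D : Set H) :=
  Submodule.isClosed_topologicalClosure _

lemma gen_le {D : Set H} {K : Submodule ℂ H} (hK : IsClosed (K : Set H)) (h : ∀ v ∈ D, v ∈ K) :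
    gen D ≤ K :=
  Submodule.topologicalClosure_minimal _ (Submodule.span_le.2 h) hK

lemma gen_maps {D : Set H} {K : Submodule ℂ H} (hK : IsClosed (K : Set H)) (T : H →L[ℂ] H)
    (h : ∀ v ∈ D, T v ∈ K) {v : H} (hv : v ∈ gen D) : T v ∈ K := by
  have h1 : gen D ≤ K.comap (T : H →ₗ[ℂ] H) := gen_le (hK.preimage T.continuous) h
  exact h1 hv

/-- two operators which agree on `D` agree on `gen D` -/
lemma gen_eqOn {D : Set H} {T S : H →L[ℂ] H} (h : ∀ v ∈ D, T v = S v) {v : H} (hv : v ∈ gen D) :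
    T v = S v := by
  have h1 : gen D ≤ LinearMap.ker ((T - S : H →L[ℂ] H) : H →ₗ[ℂ] H) := by
    refine gen_le (T - S).isClosed_ker ?_
    intro v hv
    show T v - S v = 0
    rw [h v hv, sub_self]
  exact sub_eq_zero.1 (h1 hv)

/-- a vector orthogonal to `D` is orthogonal to `gen D` -/
lemma gen_orth {D : Set H} {w : H} (h : ∀ v ∈ D, ⟪v, w⟫_ℂ = 0) {v : H} (hv : v ∈ gen D) :
    ⟪v, w⟫_ℂ = 0 := by
  have h1 : gen D ≤ (Submodule.span ℂ {w})ᗮ := by
    refine gen_le (Submodule.isClosed_orthogonal _) ?_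
    intro v hv
    rw [Submodule.mem_orthogonal_singleton_iff_inner_left]
    exact h v hv
  have := h1 hv
  rwa [Submodule.mem_orthogonal_singleton_iff_inner_left] at this

lemma gen_closure {D : Set H} {v : H} (hv : v ∈ closure D) : v ∈ gen D := by
  have h1 : closure D ⊆ (gen D : Set H) := closure_minimal (fun v hv => subset_gen hv) (isClosed_gen D)
  exact h1 hv

/-- for a subspace `D`, `gen D` is the closure -/
lemma mem_gen_iff (K : Submodule ℂ H) (D : Set H) (hD : D = (K : Set H)) {v : H} :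
    v ∈ gen D ↔ v ∈ closure D := by
  subst hD
  unfold gen
  rw [Submodule.span_eq]
  exact Iff.rfl

end gen

section proj

variable (K : Submodule ℂ H) [K.HasOrthogonalProjection]

lemma sp_mem (v : H) : K.starProjection v ∈ K := Submodule.starProjection_apply_mem _ _

variable {K}

lemma sp_of_mem {v : H} (hv : v ∈ K) : K.starProjection v = v :=
  Submodule.starProjection_eq_self_iff.2 hv

variable (K)

lemma sp_star : star K.starProjection = K.starProjection := by
  have : IsSelfAdjoint K.starProjection := isSelfAdjoint_starProjection _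
  exact this

lemma sp_idem : K.starProjection * K.starProjection = K.starProjection := by
  ext v
  exact sp_of_mem (sp_mem K v)

lemma sp_idem_apply (v : H) : K.starProjection (K.starProjection v) = K.starProjection v :=
  sp_of_mem (sp_mem K v)

lemma sp_nonneg : 0 ≤ K.starProjection := by
  have := star_mul_self_nonneg K.starProjection
  rwa [sp_star, sp_idem] at this

lemma sp_comm (t : H →L[ℂ] H) (h1 : ∀ v ∈ K, t v ∈ K) (h2 : ∀ v ∈ K, (star t) v ∈ K) :
    K.starProjection * t = t * K.starProjection := by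
  ext v
  show K.starProjection (t v) = t (K.starProjection v)
  symm
  apply (Submodule.eq_starProjection_of_mem_of_inner_eq_zero (h1 _ (K.starProjection_apply_mem v)) ?_).symm
  intro w hw
  rw [← map_sub, ← ContinuousLinearMap.adjoint_inner_right]
  exact K.starProjection_inner_eq_zero _ _ (h2 w hw)

lemma sp_le_one : K.starProjection ≤ 1 := by
  rw [ContinuousLinearMap.le_def]
  have h1 : (1 - K.starProjection) = star (1 - K.starProjection) * (1 - K.starProjection) := by
    rw [star_sub, star_one, sp_star, mul_sub, sub_mul, sub_mul, sp_idem]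
    simp
  rw [h1, ← ContinuousLinearMap.nonneg_iff_isPositive]
  exact star_mul_self_nonneg _

variable {K}

lemma sp_zero_of_orth {v : H} (hv : v ∈ Kᗮ) : K.starProjection v = 0 :=
  (Submodule.starProjection_apply_eq_zero_iff K).2 hv

lemma sub_sp_mem (v : H) : v - K.starProjection v ∈ Kᗮ := by
  rw [Submodule.mem_orthogonal']
  intro w hw
  exact K.starProjection_inner_eq_zero _ _ hw

end proj

section order

lemma le_iff_re {T S : H →L[ℂ] H} (hT : star T = T) (hS : star S = S) :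
    T ≤ S ↔ ∀ v, (⟪v, T v⟫_ℂ).re ≤ (⟪v, S v⟫_ℂ).re := by
  rw [ContinuousLinearMap.le_def, ContinuousLinearMap.isPositive_def']
  constructor
  · rintro ⟨-, h⟩ v
    have := h v
    rw [ContinuousLinearMap.reApplyInnerSelf_apply, sub_apply, inner_sub_left,
      inner_star, inner_star, hT, hS] at this
    simpa using this
  · intro h
    refine ⟨?_, fun v => ?_⟩
    · show star (S - T) = S - T
      rw [star_sub, hS, hT]
    · rw [ContinuousLinearMap.reApplyInnerSelf_apply, sub_apply, inner_sub_left,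
        inner_star, inner_star, hT, hS]
      simpa using h v

lemma re_of_le {T S : H →L[ℂ] H} (h : T ≤ S) (v : H) : (⟪v, T v⟫_ℂ).re ≤ (⟪v, S v⟫_ℂ).re := by
  have h1 : 0 ≤ S - T := sub_nonneg.2 h
  rw [ContinuousLinearMap.nonneg_iff_isPositive] at h1
  have h2 := h1.re_inner_nonneg_right v
  rw [sub_apply, inner_sub_right] at h2
  simpa using h2

lemma star_of_nonneg {T : H →L[ℂ] H} (h : 0 ≤ T) : star T = T :=
  (IsSelfAdjoint.of_nonneg h).star_eq

lemma norm_sq_eq (T : H →L[ℂ] H) (v : H) : ((‖T v‖ ^ 2 : ℝ) : ℂ) = ⟪v, (star T * T) v⟫_ℂ := by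
  show _ = ⟪v, star T (T v)⟫_ℂ
  rw [← inner_star, inner_self_eq_norm_sq_to_K]
  push_cast
  rfl

lemma norm_sq_re (T : H →L[ℂ] H) (v : H) : ‖T v‖ ^ 2 = (⟪v, (star T * T) v⟫_ℂ).re := by
  rw [← norm_sq_eq, Complex.ofReal_re]

lemma conj_le {T S : H →L[ℂ] H} (h : T ≤ S) (Z : H →L[ℂ] H) : star Z * T * Z ≤ star Z * S * Z :=
  star_left_conjugate_le_conjugate h Z

lemma conj_nonneg {T : H →L[ℂ] H} (h : 0 ≤ T) (Z : H →L[ℂ] H) : 0 ≤ star Z * T * Z :=
  star_left_conjugate_nonneg h Z

lemma norm_le_one_of_le {Z P : H →L[ℂ] H} (h : star Z * Z ≤ P) (hP : P ≤ 1) : ‖Z‖ ≤ 1 := by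
  refine ContinuousLinearMap.opNorm_le_bound _ zero_le_one fun v => ?_
  have h1 := re_of_le (h.trans hP) v
  rw [← norm_sq_re] at h1
  have h2 : (⟪v, (1 : H →L[ℂ] H) v⟫_ℂ).re = ‖v‖ ^ 2 := by
    show (⟪v, v⟫_ℂ).re = _
    rw [inner_self_eq_norm_sq_to_K]
    norm_cast
  rw [h2] at h1
  rw [one_mul]
  exact le_of_sq_le_sq h1 (norm_nonneg _)

end order

section cfc

/-- square roots in a von Neumann algebra -/
lemma exists_sqrt (T : H →L[ℂ] H) (hT : 0 ≤ T) : ∃ W : H →L[ℂ] H, 0 ≤ W ∧ W * W = T ∧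
    ∀ y, Commute T y → Commute W y :=
  ⟨CFC.sqrt T, CFC.sqrt_nonneg T, CFC.sqrt_mul_sqrt_self T, fun y hy => by
    unfold CFC.sqrt
    exact hy.cfcₙ_nnreal _⟩

/-- the resolvent approximation of the range projection -/
lemma exists_res (S : H →L[ℂ] H) (c : ℝ) (hc : 0 < c) : ∃ Y : H →L[ℂ] H, star Y = Y ∧
    (∀ y, Commute (star S * S) y → Commute Y y) ∧ star (S * Y) * (S * Y) ≤ 1 ∧
    ∀ η, ‖S η - (S * Y) (star (S * Y) (S η))‖ ^ 2 ≤ c * ‖η‖ ^ 2 := by
  set T : H →L[ℂ] H := star S * S with hT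
  have hT0 : 0 ≤ T := star_mul_self_nonneg S
  have hTs : IsSelfAdjoint T := IsSelfAdjoint.of_nonneg hT0
  have hsp : ∀ x ∈ spectrum ℝ T, 0 ≤ x := fun x hx => spectrum_nonneg_of_nonneg hT0 hx
  let f : ℝ → ℝ := fun t => (Real.sqrt (c + |t|))⁻¹
  have hpos : ∀ t : ℝ, 0 < c + |t| := fun t => by positivity
  have hf : Continuous f := by
    refine Continuous.inv₀ (by fun_prop) fun t => ?_
    exact (Real.sqrt_pos.2 (hpos t)).ne'
  have hff : ∀ t, f t * f t = (c + |t|)⁻¹ := by
    intro t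
    show (Real.sqrt (c + |t|))⁻¹ * (Real.sqrt (c + |t|))⁻¹ = _
    rw [← mul_inv, Real.mul_self_sqrt (hpos t).le]
  let Y := cfc f T
  have hYs : star Y = Y := (cfc_predicate f T : IsSelfAdjoint (cfc f T)).star_eq
  have hid : cfc (fun t : ℝ => t) T = T := cfc_id' ℝ T
  have hYTY : Y * T * Y = cfc (fun t => f t * t * f t) T := by
    conv_lhs => rw [← hid]
    show cfc f T * cfc (fun t : ℝ => t) T * cfc f T = _
    rw [← cfc_mul f (fun t : ℝ => t) T hf.continuousOn continuousOn_id,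
      ← cfc_mul (fun t => f t * t) f T (hf.mul continuous_id).continuousOn hf.continuousOn]
  refine ⟨Y, hYs, ?_, ?_, ?_⟩
  · intro y hy
    exact hy.cfc_real f
  · have h1 : star (S * Y) * (S * Y) = Y * T * Y := by
      rw [star_mul, hYs, hT]
      noncomm_ring
    rw [h1, hYTY]
    refine cfc_le_one _ _ fun t ht => ?_
    have h2 : f t * t * f t = (c + |t|)⁻¹ * t := by rw [← hff]; ring
    rw [h2, abs_of_nonneg (hsp t ht), inv_mul_le_iff₀ (by have := hsp t ht; positivity)]
    linarith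
  · intro η
    let k : ℝ → ℝ := fun t => 1 - f t * f t * t
    have hk : Continuous k := by
      show Continuous (fun t => 1 - f t * f t * t)
      fun_prop
    let K := cfc k T
    have hKs : star K = K := (cfc_predicate k T : IsSelfAdjoint (cfc k T)).star_eq
    have hK : K = 1 - Y * Y * T := by
      have e1 : cfc (fun t : ℝ => f t * f t * t) T = Y * Y * T := by
        rw [cfc_mul (fun t => f t * f t) (fun t : ℝ => t) T (hf.mul hf).continuousOn
          continuousOn_id, hid, cfc_mul f f T hf.continuousOn hf.continuousOn]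
      show cfc (fun t => 1 - f t * f t * t) T = _
      rw [cfc_sub (fun _ => (1 : ℝ)) (fun t => f t * f t * t) T continuousOn_const
        ((hf.mul hf).mul continuous_id).continuousOn, e1, cfc_const_one ℝ T]
    have h1 : S η - (S * Y) (star (S * Y) (S η)) = (S * K) η := by
      have : S - (S * Y) * (star (S * Y) * S) = S * K := by
        rw [hK, star_mul, hYs, hT]
        noncomm_ring
      rw [← this]
      rfl
    have h2 : star (S * K) * (S * K) = K * T * K := by
      rw [star_mul, hKs, hT]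
      noncomm_ring
    have h3 : ‖K * T * K‖ ≤ c := by
      have e2 : K * T * K = cfc (fun t => k t * t * k t) T := by
        conv_lhs => rw [← hid]
        show cfc k T * cfc (fun t : ℝ => t) T * cfc k T = _
        rw [← cfc_mul k (fun t : ℝ => t) T hk.continuousOn continuousOn_id,
          ← cfc_mul (fun t => k t * t) k T (hk.mul continuous_id).continuousOn hk.continuousOn]
      rw [e2]
      refine norm_cfc_le hc.le fun t ht => ?_
      have ht0 := hsp t ht
      have hct : 0 < c + t := by positivity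
      have e3 : k t = c / (c + t) := by
        show 1 - f t * f t * t = _
        rw [hff, abs_of_nonneg ht0]
        field_simp
        ring
      rw [e3, Real.norm_eq_abs, abs_of_nonneg (by positivity)]
      have e4 : c / (c + t) * t * (c / (c + t)) = c * ((c / (c + t)) * (t / (c + t))) := by
        field_simp
      rw [e4]
      have e5 : c / (c + t) ≤ 1 := by rw [div_le_one hct]; linarith
      have e6 : t / (c + t) ≤ 1 := by rw [div_le_one hct]; linarith
      have e7 : (c / (c + t)) * (t / (c + t)) ≤ 1 := mul_le_one₀ e5 (by positivity) e6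
      nlinarith
    rw [h1]
    have h4 : ‖(S * K) η‖ ^ 2 = (⟪η, (K * T * K) η⟫_ℂ).re := by
      rw [norm_sq_re, h2]
    rw [h4]
    calc (⟪η, (K * T * K) η⟫_ℂ).re ≤ ‖⟪η, (K * T * K) η⟫_ℂ‖ := Complex.re_le_norm _
      _ ≤ ‖η‖ * ‖(K * T * K) η‖ := norm_inner_le_norm _ _
      _ ≤ ‖η‖ * (‖K * T * K‖ * ‖η‖) := by
          gcongr
          exact ContinuousLinearMap.le_opNorm _ _
      _ ≤ ‖η‖ * (c * ‖η‖) := by gcongr
      _ = c * ‖η‖ ^ 2 := by ring

end cfc

section form

/-- Bounded sesquilinear forms are given by operators. -/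
theorem exists_op_of_form (B : H → H → ℂ) (C : ℝ) (hC : 0 ≤ C)
    (add_l : ∀ ξ ξ' η, B (ξ + ξ') η = B ξ η + B ξ' η) (smul_l : ∀ (c : ℂ) ξ η, B (c • ξ) η = c * B ξ η)
    (add_r : ∀ ξ η η', B ξ (η + η') = B ξ η + B ξ η')
    (smul_r : ∀ (c : ℂ) ξ η, B ξ (c • η) = (starRingEnd ℂ) c * B ξ η)
    (hb : ∀ ξ η, ‖B ξ η‖ ≤ C * ‖ξ‖ * ‖η‖) :
    ∃ T : H →L[ℂ] H, ‖T‖ ≤ C ∧ ∀ ξ η, ⟪η, T ξ⟫_ℂ = B ξ η := by
  let ℓ : H → (H →L[ℂ] ℂ) := fun ξ => LinearMap.mkContinuous
    { toFun := fun η => (starRingEnd ℂ) (B ξ η)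
      map_add' := fun η η' => by rw [add_r, map_add]
      map_smul' := fun c η => by
        rw [smul_r, map_mul, Complex.conj_conj, RingHom.id_apply, smul_eq_mul] }
    (C * ‖ξ‖) (fun η => by
      show ‖(starRingEnd ℂ) (B ξ η)‖ ≤ _
      rw [RCLike.norm_conj]
      exact hb ξ η)
  let t : H → H := fun ξ => (InnerProductSpace.toDual ℂ H).symm (ℓ ξ)
  have ht : ∀ ξ η, ⟪η, t ξ⟫_ℂ = B ξ η := by
    intro ξ η
    have h1 : ⟪t ξ, η⟫_ℂ = ℓ ξ η := InnerProductSpace.toDual_symm_apply
    rw [← inner_conj_symm, h1]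
    show (starRingEnd ℂ) ((starRingEnd ℂ) (B ξ η)) = B ξ η
    exact Complex.conj_conj _
  have hbd : ∀ ξ, ‖t ξ‖ ≤ C * ‖ξ‖ := by
    intro ξ
    have h1 : ‖t ξ‖ ^ 2 ≤ C * ‖ξ‖ * ‖t ξ‖ := by
      have h2 : ‖t ξ‖ ^ 2 = ‖⟪t ξ, t ξ⟫_ℂ‖ := by
        rw [inner_self_eq_norm_sq_to_K]
        simp
      rw [h2, ht]
      exact hb _ _
    rcases (norm_nonneg (t ξ)).eq_or_lt with h0 | h0
    · rw [← h0]
      positivity
    · have : ‖t ξ‖ * ‖t ξ‖ ≤ C * ‖ξ‖ * ‖t ξ‖ := by rw [← sq]; exact h1
      exact le_of_mul_le_mul_right this h0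
  let T : H →L[ℂ] H := LinearMap.mkContinuous
    { toFun := t
      map_add' := fun ξ ξ' => by
        refine ext_inner_left ℂ fun η => ?_
        rw [inner_add_right, ht, ht, ht, add_l]
      map_smul' := fun c ξ => by
        refine ext_inner_left ℂ fun η => ?_
        rw [RingHom.id_apply, inner_smul_right, ht, ht, smul_l] }
    C hbd
  exact ⟨T, LinearMap.mkContinuous_norm_le _ hC _, ht⟩

end form

end Pool.Agent.R298.BC
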