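import Mathlib
import Pool.Agent.R298.BC.Std

/-!
The modular conjugation and the basic construction.
-/

set_option autoImplicit false
set_option linter.unusedSectionVars false
set_option linter.unusedVariables false

open scoped InnerProductSpace ENNReal

namespace Pool.Agent.R298.BC

variable {H : Type} [NormedAddCommGroup H] [InnerProductSpace ℂ H] [CompleteSpace H]
variable (S : Sys H)

/-- two continuous functions which agree on `A Ω` are equal -/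
lemma Sys.ext_A {f g : H → H} (hf : Continuous f) (hg : Continuous g)
    (h : ∀ a ∈ S.A, f (a S.Ω) = g (a S.Ω)) : f = g := by
  refine Continuous.ext_on S.cyclic hf hg ?_
  rintro _ ⟨a, ha, rfl⟩
  exact h a ha

lemma Sys.J_apply {a : H →L[ℂ] H} (ha : a ∈ S.A) : S.J (a S.Ω) = (star a) S.Ω := S.J_spec a ha

lemma Sys.JJ (v : H) : S.J (S.J v) = v := by
  have h := S.ext_A (f := fun v => S.J (S.J v)) (g := fun v => v)
    (S.J.continuous.comp S.J.continuous) continuous_id (fun a ha => by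
      show S.J (S.J (a S.Ω)) = a S.Ω
      rw [S.J_apply ha, S.J_apply (star_mem ha), star_star])
  exact congrFun h v

lemma Sys.Ω_mem : ∃ a ∈ S.A, a S.Ω = S.Ω := ⟨1, one_mem _, rfl⟩

lemma Sys.J_Ω : S.J S.Ω = S.Ω := by
  have := S.J_apply (one_mem S.A)
  rwa [star_one] at this

lemma Sys.J_inner_aux {a b : H →L[ℂ] H} (ha : a ∈ S.A) (hb : b ∈ S.A) :
    ⟪S.J (a S.Ω), S.J (b S.Ω)⟫_ℂ = ⟪b S.Ω, a S.Ω⟫_ℂ := by
  rw [S.J_apply ha, S.J_apply hb, inner_star, star_star, inner_star]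
  exact S.tracial a ha (star b) (star_mem hb)

lemma Sys.J_inner (v w : H) : ⟪S.J v, S.J w⟫_ℂ = ⟪w, v⟫_ℂ := by
  have h1 : ∀ b ∈ S.A, (fun v => ⟪S.J v, S.J (b S.Ω)⟫_ℂ) = fun v => ⟪b S.Ω, v⟫_ℂ := by
    intro b hb
    refine Continuous.ext_on S.cyclic ?_ ?_ ?_
    · exact Continuous.inner S.J.continuous continuous_const
    · exact Continuous.inner continuous_const continuous_id
    · rintro _ ⟨a, ha, rfl⟩
      exact S.J_inner_aux ha hb
  have h2 : (fun w => ⟪S.J v, S.J w⟫_ℂ) = fun w => ⟪w, v⟫_ℂ := by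
    refine Continuous.ext_on S.cyclic ?_ ?_ ?_
    · exact Continuous.inner continuous_const S.J.continuous
    · exact Continuous.inner continuous_id continuous_const
    · rintro _ ⟨b, hb, rfl⟩
      exact congrFun (h1 b hb) v
  exact congrFun h2 w

lemma Sys.J_inner' (v w : H) : ⟪S.J v, w⟫_ℂ = ⟪S.J w, v⟫_ℂ := by
  have := S.J_inner v (S.J w)
  rwa [S.JJ] at this

/-- `J T J` -/
noncomputable def Sys.jj (T : H →L[ℂ] H) : H →L[ℂ] H :=
  (S.J.toContinuousLinearEquiv : H →L⋆[ℂ] H).comp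
    (T.comp (S.J.toContinuousLinearEquiv : H →L⋆[ℂ] H))

lemma Sys.jj_apply (T : H →L[ℂ] H) (v : H) : S.jj T v = S.J (T (S.J v)) := rfl

lemma Sys.jj_jj (T : H →L[ℂ] H) : S.jj (S.jj T) = T := by
  ext v
  rw [S.jj_apply, S.jj_apply, S.JJ, S.JJ]

lemma Sys.jj_mul (T R : H →L[ℂ] H) : S.jj (T * R) = S.jj T * S.jj R := by
  ext v
  show S.J (T (R (S.J v))) = S.J (T (S.J (S.J (R (S.J v)))))
  rw [S.JJ]

lemma Sys.jj_one : S.jj 1 = 1 := by
  ext v
  exact S.JJ v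

lemma Sys.jj_star (T : H →L[ℂ] H) : star (S.jj T) = S.jj (star T) := by
  refine star_eq_of_inner fun ξ η => ?_
  rw [S.jj_apply, S.jj_apply, S.J_inner', inner_star', ← S.J_inner, S.JJ]

lemma Sys.jj_inj {T R : H →L[ℂ] H} (h : S.jj T = S.jj R) : T = R := by
  rw [← S.jj_jj T, h, S.jj_jj]

lemma Sys.jj_Ω {T : H →L[ℂ] H} : S.jj T S.Ω = S.J (T S.Ω) := by
  rw [S.jj_apply, S.J_Ω]

lemma Sys.jj_A_Ω {a : H →L[ℂ] H} (ha : a ∈ S.A) : S.jj a S.Ω = (star a) S.Ω := by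
  rw [S.jj_Ω, S.J_apply ha]

/-- two operators which agree on `A Ω` are equal -/
lemma Sys.op_ext {T R : H →L[ℂ] H} (h : ∀ a ∈ S.A, T (a S.Ω) = R (a S.Ω)) : T = R := by
  ext v
  exact congrFun (S.ext_A T.continuous R.continuous h) v

lemma Sys.jj_comm {a b : H →L[ℂ] H} (ha : a ∈ S.A) (hb : b ∈ S.A) :
    S.jj a * b = b * S.jj a := by
  refine S.op_ext fun c hc => ?_
  have h1 : S.J ((b * c) S.Ω) = star (b * c) S.Ω := S.J_apply (mul_mem hb hc)
  have h2 : S.J ((a * star (b * c)) S.Ω) = star (a * star (b * c)) S.Ω :=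
    S.J_apply (mul_mem ha (star_mem (mul_mem hb hc)))
  have h3 : S.J ((a * star c) S.Ω) = star (a * star c) S.Ω :=
    S.J_apply (mul_mem ha (star_mem hc))
  show S.J (a (S.J ((b * c) S.Ω))) = b (S.J (a (S.J (c S.Ω))))
  rw [h1, S.J_apply hc]
  show S.J ((a * star (b * c)) S.Ω) = b (S.J ((a * star c) S.Ω))
  rw [h2, h3]
  simp only [star_mul, star_star]
  rfl

lemma Sys.jj_mem_comm {a : H →L[ℂ] H} (ha : a ∈ S.A) : S.jj a ∈ S.A.commutant := by
  rw [mem_comm]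
  intro x hx
  exact (S.jj_comm ha hx).symm

section sub

variable (G : VonNeumannAlgebra H) (hG : ∀ x ∈ G, x ∈ S.A)

/-- The right module maps, `(J G J)'` -/
noncomputable def Sys.rm : VonNeumannAlgebra H := commVN {y | ∃ g ∈ G, y = S.jj g}

variable {G}

lemma Sys.mem_rm {T : H →L[ℂ] H} : T ∈ S.rm G ↔ ∀ g ∈ G, S.jj g * T = T * S.jj g := by
  unfold Sys.rm
  rw [mem_commVN]
  constructor
  · intro h g hg
    exact (h _ ⟨g, hg, rfl⟩).1
  · rintro h _ ⟨g, hg, rfl⟩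
    refine ⟨h g hg, ?_⟩
    rw [S.jj_star]
    exact h _ (star_mem hg)

lemma Sys.sp_gen {g : H →L[ℂ] H} (hg : g ∈ G) : g S.Ω ∈ S.sp G := subset_gen ⟨g, hg, rfl⟩

lemma Sys.sp_inv {g : H →L[ℂ] H} (hg : g ∈ G) {v : H} (hv : v ∈ S.sp G) : g v ∈ S.sp G := by
  refine gen_maps (isClosed_gen _) g ?_ hv
  rintro _ ⟨f, hf, rfl⟩
  exact S.sp_gen (mul_mem hg hf)

include hG in
lemma Sys.sp_J {v : H} (hv : v ∈ S.sp G) : S.J v ∈ S.sp G := by
  have h1 : S.sp G ≤ (S.sp G).comap (S.J.toLinearEquiv : H →ₛₗ[starRingEnd ℂ] H) := by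
    refine gen_le ((isClosed_gen _).preimage S.J.continuous) ?_
    rintro _ ⟨f, hf, rfl⟩
    show S.J (f S.Ω) ∈ S.sp G
    rw [S.J_apply (hG f hf)]
    exact S.sp_gen (star_mem hf)
  exact h1 hv

include hG in
lemma Sys.sp_jj {g : H →L[ℂ] H} (hg : g ∈ G) {v : H} (hv : v ∈ S.sp G) : S.jj g v ∈ S.sp G :=
  S.sp_J hG (S.sp_inv hg (S.sp_J hG hv))

lemma Sys.Ω_sp : S.Ω ∈ S.sp G := S.sp_gen (one_mem G)

lemma Sys.e_Ω : S.e G S.Ω = S.Ω := sp_of_mem S.Ω_sp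

lemma Sys.e_star : star (S.e G) = S.e G := sp_star _

lemma Sys.e_idem : S.e G * S.e G = S.e G := sp_idem _

lemma Sys.e_comm {g : H →L[ℂ] H} (hg : g ∈ G) : S.e G * g = g * S.e G :=
  sp_comm _ g (fun v hv => S.sp_inv hg hv) (fun v hv => S.sp_inv (star_mem hg) hv)

lemma Sys.e_mem_comm : S.e G ∈ G.commutant := by
  rw [mem_comm]
  intro x hx
  exact (S.e_comm hx).symm

include hG in
lemma Sys.e_jj {g : H →L[ℂ] H} (hg : g ∈ G) : S.e G * S.jj g = S.jj g * S.e G := by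
  refine sp_comm _ _ (fun v hv => S.sp_jj hG hg hv) (fun v hv => ?_)
  rw [S.jj_star]
  exact S.sp_jj hG (star_mem hg) hv

include hG in
lemma Sys.e_mem_rm : S.e G ∈ S.rm G := by
  rw [S.mem_rm]
  intro g hg
  exact (S.e_jj hG hg).symm

include hG in
lemma Sys.jj_e : S.jj (S.e G) = S.e G := by
  ext v
  rw [S.jj_apply]
  have h1 : S.J v = S.e G (S.J v) + (S.J v - S.e G (S.J v)) := by abel
  have h2 : v = S.J (S.e G (S.J v)) + S.J (S.J v - S.e G (S.J v)) := by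
    rw [← map_add, ← h1, S.JJ]
  conv_rhs => rw [h2, map_add]
  have h3 : S.e G (S.J (S.e G (S.J v))) = S.J (S.e G (S.J v)) :=
    sp_of_mem (S.sp_J hG (sp_mem _ _))
  have h4 : S.e G (S.J (S.J v - S.e G (S.J v))) = 0 := by
    refine sp_zero_of_orth ?_
    rw [Submodule.mem_orthogonal']
    intro u hu
    rw [S.J_inner']
    exact Submodule.inner_right_of_mem_orthogonal (S.sp_J hG hu) (sub_sp_mem _)
  rw [h3, h4, add_zero]

/-- (Lemma 1) `J x Ω = x* Ω` for `x ∈ e G' e` -/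
lemma Sys.J_of_corner {x : H →L[ℂ] H} (hG : ∀ x ∈ G, x ∈ S.A) (hx : x ∈ G.commutant)
    (hxe : S.e G * x = x) (hxe' : x * S.e G = x) : S.J (x S.Ω) = star x S.Ω := by
  have h1 : S.J (x S.Ω) ∈ S.sp G := by
    refine S.sp_J hG ?_
    rw [← hxe]
    exact sp_mem _ _
  have h2 : star x S.Ω ∈ S.sp G := by
    have : star x = S.e G * star x := by
      conv_lhs => rw [← hxe', star_mul, S.e_star]
    rw [this]
    exact sp_mem _ _
  have h3 : S.J (x S.Ω) - star x S.Ω ∈ S.sp G := sub_mem h1 h2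
  have h4 : ∀ v ∈ {v | ∃ g ∈ G, g S.Ω = v}, ⟪v, S.J (x S.Ω) - star x S.Ω⟫_ℂ = 0 := by
    rintro _ ⟨g, hg, rfl⟩
    rw [inner_sub_right, ← inner_star]
    have e1 : ⟪g S.Ω, S.J (x S.Ω)⟫_ℂ = ⟪x (g S.Ω), S.Ω⟫_ℂ := by
      rw [← S.J_inner, S.JJ, S.J_apply (hG g hg), inner_star', star_star]
      show ⟪(g * x) S.Ω, S.Ω⟫_ℂ = ⟪(x * g) S.Ω, S.Ω⟫_ℂ
      rw [(mem_comm.1 hx) g hg]
    rw [e1, sub_self]
  exact sub_eq_zero.1 (inner_self_eq_zero.1 (gen_orth h4 h3) : S.J (x S.Ω) - star x S.Ω = 0)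

end sub

end Pool.Agent.R298.BC
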