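import Mathlib
import Pool.Agent.R298.BC.JJ

/-!
`e_G (J G J)' e_G = G e_G` and `⟨A, e_G⟩ = (J G J)'`.
-/

set_option autoImplicit false
set_option linter.unusedSectionVars false
set_option linter.unusedVariables false

open scoped InnerProductSpace ENNReal

namespace Pool.Agent.R298.BC

variable {H : Type} [NormedAddCommGroup H] [InnerProductSpace ℂ H] [CompleteSpace H]
variable (S : Sys H)

section sub

variable {G : VonNeumannAlgebra H} (hG : ∀ x ∈ G, x ∈ S.A)

/-- the corner `e G' e` -/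
def Sys.corner (S : Sys H) (G : VonNeumannAlgebra H) (x : H →L[ℂ] H) : Prop :=
  x ∈ G.commutant ∧ S.e G * x = x ∧ x * S.e G = x

lemma Sys.corner_mul {x y : H →L[ℂ] H} (hx : S.corner G x) (hy : S.corner G y) :
    S.corner G (x * y) := by
  refine ⟨mul_mem hx.1 hy.1, ?_, ?_⟩
  · rw [← mul_assoc, hx.2.1]
  · rw [mul_assoc, hy.2.2]

lemma Sys.corner_star {x : H →L[ℂ] H} (hx : S.corner G x) : S.corner G (star x) := by
  refine ⟨star_mem hx.1, ?_, ?_⟩
  · have := congrArg star hx.2.2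
    rwa [star_mul, S.e_star] at this
  · have := congrArg star hx.2.1
    rwa [star_mul, S.e_star] at this

include hG in
lemma Sys.jj_mem_comm' {g : H →L[ℂ] H} (hg : g ∈ G) : S.jj g ∈ G.commutant := by
  rw [mem_comm]
  intro x hx
  exact (S.jj_comm (hG g hg) (hG x hx)).symm

include hG in
lemma Sys.corner_jj {g : H →L[ℂ] H} (hg : g ∈ G) : S.corner G (S.jj g * S.e G) := by
  refine ⟨mul_mem (S.jj_mem_comm' hG hg) S.e_mem_comm, ?_, ?_⟩
  · rw [← mul_assoc, S.e_jj hG hg, mul_assoc, S.e_idem]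
  · rw [mul_assoc, S.e_idem]

include hG in
/-- (Lemma 2) -/
lemma Sys.corner_comm {x y : H →L[ℂ] H} (hx : S.corner G x) (hy : S.corner G y) :
    S.jj x * y = y * S.jj x := by
  have key : ∀ g ∈ G, (S.jj x * y) (g S.Ω) = (y * S.jj x) (g S.Ω) := by
    intro g hg
    set c : H →L[ℂ] H := S.jj (star g) * S.e G with hc
    have hcc : S.corner G c := S.corner_jj hG (star_mem hg)
    have h1 : c S.Ω = g S.Ω := by
      show S.jj (star g) (S.e G S.Ω) = g S.Ω
      rw [S.e_Ω, S.jj_A_Ω (star_mem (hG g hg)), star_star]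
    have J1 : ∀ z, S.corner G z → S.J (z S.Ω) = star z S.Ω := fun z hz =>
      S.J_of_corner hG hz.1 hz.2.1 hz.2.2
    rw [← h1]
    have e1 : (S.jj x * y) (c S.Ω) = star (x * star (y * c)) S.Ω := by
      show S.J (x (S.J ((y * c) S.Ω))) = _
      rw [J1 _ (S.corner_mul hy hcc)]
      exact J1 _ (S.corner_mul hx (S.corner_star (S.corner_mul hy hcc)))
    have e2 : (y * S.jj x) (c S.Ω) = y (star (x * star c) S.Ω) := by
      show y (S.J (x (S.J (c S.Ω)))) = _
      rw [J1 _ hcc]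
      congr 1
      exact J1 _ (S.corner_mul hx (S.corner_star hcc))
    rw [e1, e2]
    simp only [star_mul, star_star]
    rfl
  have h2 : S.jj x = S.jj x * S.e G := by
    conv_lhs => rw [← hx.2.2, S.jj_mul, S.jj_e hG]
  ext v
  have h3 : (S.jj x * y) v = (S.jj x * y) (S.e G v) := by
    conv_lhs => rw [← hy.2.2, ← mul_assoc]
    rfl
  have h4 : (y * S.jj x) v = (y * S.jj x) (S.e G v) := by
    conv_lhs => rw [h2, ← mul_assoc]
    rfl
  rw [h3, h4]
  refine gen_eqOn ?_ (sp_mem (S.sp G) v)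
  rintro _ ⟨g, hg, rfl⟩
  exact key g hg

include hG in
/-- `J T J` commutes with `G` if `T` is a right module map -/
lemma Sys.jj_mem_of_rm {T : H →L[ℂ] H} (hT : T ∈ S.rm G) : S.jj T ∈ G.commutant := by
  rw [mem_comm]
  intro g hg
  have := (S.mem_rm.1 hT) g hg
  have h2 := congrArg S.jj this
  rwa [S.jj_mul, S.jj_mul, S.jj_jj] at h2

include hG in
/-- (Lemma 3) `e T e` commutes with `e G' e` for `T ∈ (J G J)'` -/
lemma Sys.rm_corner_comm {T : H →L[ℂ] H} (hT : T ∈ S.rm G) {y : H →L[ℂ] H} (hy : S.corner G y) :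
    (S.e G * T * S.e G) * y = y * (S.e G * T * S.e G) := by
  have h1 : S.corner G (S.e G * S.jj T * S.e G) := by
    refine ⟨mul_mem (mul_mem S.e_mem_comm (S.jj_mem_of_rm hG hT)) S.e_mem_comm, ?_, ?_⟩
    · rw [← mul_assoc, ← mul_assoc, S.e_idem]
    · rw [mul_assoc, S.e_idem]
  have h2 := S.corner_comm hG h1 hy
  rw [S.jj_mul, S.jj_mul, S.jj_jj, S.jj_e hG] at h2
  exact h2

/-- The elements of a von Neumann algebra, as a type. -/
abbrev Elt (M : VonNeumannAlgebra H) : Type := M.toStarSubalgebra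

/-- evaluation at a vector -/
noncomputable def ev (M : VonNeumannAlgebra H) (ξ : H) : Elt M →ₗ[ℂ] H where
  toFun x := (x : H →L[ℂ] H) ξ
  map_add' x y := rfl
  map_smul' c x := rfl

include hG in
lemma Sys.dense_comm : DenseRange (ev G.commutant S.Ω) := by
  refine S.cyclic.mono ?_
  rintro _ ⟨a, ha, rfl⟩
  have h1 : S.jj (star a) ∈ G.commutant := by
    rw [mem_comm]
    intro x hx
    exact (S.jj_comm (star_mem ha) (hG x hx)).symm
  refine ⟨⟨S.jj (star a), h1⟩, ?_⟩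
  show S.jj (star a) S.Ω = a S.Ω
  rw [S.jj_A_Ω (star_mem ha), star_star]

include hG in
/-- (Lemma 4) `e (J G J)' e = G e` -/
theorem Sys.exists_corner {T : H →L[ℂ] H} (hT : T ∈ S.rm G) :
    ∃ g ∈ G, S.e G * T * S.e G = g * S.e G := by
  set T' : H →L[ℂ] H := S.e G * T * S.e G with hT'
  have hT'rm : T' ∈ S.rm G := mul_mem (mul_mem (S.e_mem_rm hG) hT) (S.e_mem_rm hG)
  have heT' : S.e G * T' = T' := by rw [hT', ← mul_assoc, ← mul_assoc, S.e_idem]
  have hT'e : T' * S.e G = T' := by rw [hT', mul_assoc, S.e_idem]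
  have hcom : ∀ y, S.corner G y → T' * y = y * T' := fun y hy => S.rm_corner_comm hG hT hy
  set ζ : H := T' S.Ω with hζ
  have hbound : ∀ y : Elt G.commutant, ‖ev G.commutant ζ y‖ ≤ ‖T'‖ * ‖ev G.commutant S.Ω y‖ := by
    intro y
    set Q : H →L[ℂ] H := S.e G * (star (y : H →L[ℂ] H) * (y : H →L[ℂ] H)) * S.e G with hQ
    have hQ0 : 0 ≤ Q := by
      have := conj_nonneg (star_mul_self_nonneg (y : H →L[ℂ] H)) (S.e G)
      rwa [S.e_star] at this
    have hQc : S.corner G Q := by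
      refine ⟨mul_mem (mul_mem S.e_mem_comm (mul_mem (star_mem y.2) y.2)) S.e_mem_comm, ?_, ?_⟩
      · rw [hQ, ← mul_assoc, ← mul_assoc, S.e_idem]
      · rw [hQ, mul_assoc, S.e_idem]
    obtain ⟨R, hR0, hRR, hRc⟩ := exists_sqrt Q hQ0
    have hRs : star R = R := star_of_nonneg hR0
    have hRG : R ∈ G.commutant := by
      rw [mem_comm]
      intro g hg
      exact (hRc g ((mem_comm.1 hQc.1 g hg).symm : Q * g = g * Q)).symm
    have hRe : R * S.e G = R := by
      have h1 : R * (1 - S.e G) = 0 := by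
        have h2 : star (R * (1 - S.e G)) * (R * (1 - S.e G)) = 0 := by
          rw [star_mul, hRs, mul_assoc, ← mul_assoc R R, hRR, mul_sub, mul_one, hQc.2.2, sub_self,
            mul_zero]
        exact (CStarRing.star_mul_self_eq_zero_iff _).1 h2
      rw [mul_sub, mul_one, sub_eq_zero] at h1
      exact h1.symm
    have heR : S.e G * R = R := by
      have := congrArg star hRe
      rwa [star_mul, hRs, S.e_star] at this
    have hRT : T' * R = R * T' := hcom R ⟨hRG, heR, hRe⟩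
    have n1 : ∀ v, S.e G v = v → ‖(y : H →L[ℂ] H) v‖ = ‖R v‖ := by
      intro v hv
      have e1 : ‖(y : H →L[ℂ] H) v‖ ^ 2 = ‖R v‖ ^ 2 := by
        rw [norm_sq_re, norm_sq_re, hRs, hRR, hQ]
        have : (S.e G * (star (y : H →L[ℂ] H) * (y : H →L[ℂ] H)) * S.e G) v =
            S.e G ((star (y : H →L[ℂ] H) * (y : H →L[ℂ] H)) (S.e G v)) := rfl
        rw [this, hv, inner_star' (S.e G), S.e_star, hv]
      exact (sq_eq_sq₀ (norm_nonneg _) (norm_nonneg _)).1 e1
    have hζe : S.e G ζ = ζ := by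
      show (S.e G * T') S.Ω = T' S.Ω
      rw [heT']
    show ‖(y : H →L[ℂ] H) ζ‖ ≤ ‖T'‖ * ‖(y : H →L[ℂ] H) S.Ω‖
    rw [n1 ζ hζe, n1 S.Ω S.e_Ω]
    have : R ζ = T' (R S.Ω) := by
      show (R * T') S.Ω = (T' * R) S.Ω
      rw [hRT]
    rw [this]
    exact T'.le_opNorm _
  set g : H →L[ℂ] H := (ev G.commutant ζ).extendOfNorm (ev G.commutant S.Ω) with hgdef
  have hg : ∀ y : Elt G.commutant, g ((y : H →L[ℂ] H) S.Ω) = (y : H →L[ℂ] H) ζ := fun y =>
    LinearMap.extendOfNorm_eq (S.dense_comm hG) ⟨‖T'‖, hbound⟩ y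
  have hgG : g ∈ G := by
    refine mem_of_comm G fun z hz => ?_
    have h1 : (z * g : H →L[ℂ] H) = g * z := by
      refine ContinuousLinearMap.ext fun v => ?_
      refine congrFun (Continuous.ext_on (S.dense_comm hG) (f := fun v => (z * g) v)
        (g := fun v => (g * z) v) (z * g).continuous (g * z).continuous ?_) v
      rintro _ ⟨y, rfl⟩
      show z (g ((y : H →L[ℂ] H) S.Ω)) = g (z ((y : H →L[ℂ] H) S.Ω))
      rw [hg y]
      exact (hg (⟨z, hz⟩ * y)).symm
    exact h1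
  refine ⟨g, hgG, ?_⟩
  have key : ∀ h ∈ G, T' (h S.Ω) = g (h S.Ω) := by
    intro h hh
    have hj : S.jj (star h) ∈ G.commutant := S.jj_mem_comm' hG (star_mem hh)
    have h1 : h S.Ω = S.jj (star h) S.Ω := by
      rw [S.jj_A_Ω (star_mem (hG h hh)), star_star]
    have h2 : T' (S.jj (star h) S.Ω) = S.jj (star h) ζ := by
      show (T' * S.jj (star h)) S.Ω = (S.jj (star h) * T') S.Ω
      rw [(S.mem_rm.1 hT'rm) _ (star_mem hh)]
    rw [h1, h2]
    exact (hg ⟨_, hj⟩).symm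
  rw [← hT'e]
  ext v
  show T' (S.e G v) = g (S.e G v)
  refine gen_eqOn ?_ (sp_mem (S.sp G) v)
  rintro _ ⟨h, hh, rfl⟩
  exact key h hh

include hG in
/-- (Lemma 5) `a Ω ∈ H_G` implies `a ∈ G` -/
lemma Sys.mem_of_sp {a : H →L[ℂ] H} (ha : a ∈ S.A) (h : a S.Ω ∈ S.sp G) : a ∈ G := by
  have h1 : a ∈ S.rm G := by
    rw [S.mem_rm]
    intro g hg
    exact S.jj_comm (hG g hg) ha
  obtain ⟨g, hg, hge⟩ := S.exists_corner hG h1
  have h2 : a S.Ω = g S.Ω := by
    have h3 : (S.e G * a * S.e G) S.Ω = (g * S.e G) S.Ω := by rw [hge]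
    have h4 : S.e G (a (S.e G S.Ω)) = g (S.e G S.Ω) := h3
    rw [S.e_Ω] at h4
    rw [← h4]
    exact (sp_of_mem h).symm
  have h3 : a - g = 0 := S.separating _ (sub_mem ha (hG g hg)) (by
    show a S.Ω - g S.Ω = 0
    rw [h2, sub_self])
  rw [sub_eq_zero.1 h3]
  exact hg

lemma Sys.e_top : S.e S.A = 1 := by
  refine S.op_ext fun a ha => ?_
  exact sp_of_mem (S.sp_gen ha)

/-- `(J A J)' = A` -/
lemma Sys.rm_A {T : H →L[ℂ] H} (hT : T ∈ S.rm S.A) : T ∈ S.A := by
  obtain ⟨g, hg, h⟩ := S.exists_corner (fun x hx => hx) hT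
  rw [S.e_top, one_mul, mul_one, mul_one] at h
  rw [h]
  exact hg

/-- `A' = J A J` -/
lemma Sys.comm_A {T : H →L[ℂ] H} (hT : T ∈ S.A.commutant) : S.jj T ∈ S.A := by
  refine S.rm_A ?_
  rw [S.mem_rm]
  intro g hg
  rw [← S.jj_mul, ← S.jj_mul, mem_comm.1 hT g hg]

include hG in
/-- `⟨A, e_G⟩ = (J G J)'` -/
theorem Sys.basic_eq : S.basic G = S.rm G := by
  refine VonNeumannAlgebra.ext fun T => ?_
  constructor
  · intro hT
    rw [S.mem_rm]
    intro g hg
    refine mem_comm.1 hT (S.jj g) ?_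
    rw [mem_commVN]
    rintro d (hd | hd)
    · exact ⟨(S.jj_comm (hG g hg) hd).symm, (S.jj_comm (hG g hg) (star_mem hd)).symm⟩
    · rw [Set.mem_singleton_iff.1 hd, S.e_star]
      exact ⟨S.e_jj hG hg, S.e_jj hG hg⟩
  · intro hT
    show T ∈ (commVN ({x | x ∈ S.A} ∪ {S.e G})).commutant
    rw [mem_comm]
    intro y hy
    rw [mem_commVN] at hy
    have h1 : y ∈ S.A.commutant := mem_comm.2 fun a ha => (hy a (Or.inl ha)).1
    have h2 := S.comm_A h1
    have h3 : S.e G * y = y * S.e G := (hy _ (Or.inr rfl)).1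
    have h4 : S.jj y S.Ω ∈ S.sp G := by
      have h5 : S.e G * S.jj y = S.jj y * S.e G := by
        have := congrArg S.jj h3
        rwa [S.jj_mul, S.jj_mul, S.jj_e hG] at this
      have h6 : S.jj y S.Ω = S.e G (S.jj y S.Ω) := by
        show _ = (S.e G * S.jj y) S.Ω
        rw [h5]
        show _ = S.jj y (S.e G S.Ω)
        rw [S.e_Ω]
      rw [h6]
      exact sp_mem _ _
    have h7 := (S.mem_rm.1 hT) _ (S.mem_of_sp hG h2 h4)
    rwa [S.jj_jj] at h7

include hG in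
lemma Sys.A_rm {a : H →L[ℂ] H} (ha : a ∈ S.A) : a ∈ S.rm G := by
  rw [S.mem_rm]
  intro g hg
  exact S.jj_comm (hG g hg) ha

end sub

end Pool.Agent.R298.BC
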