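import Mathlib
import Pool.Agent.R298.BC.Com

/-!
Parseval frames in `(J G J)' e_G`.
-/

set_option autoImplicit false
set_option linter.unusedSectionVars false
set_option linter.unusedVariables false

open scoped InnerProductSpace ENNReal

namespace Pool.Agent.R298.BC

variable {H : Type} [NormedAddCommGroup H] [InnerProductSpace ℂ H] [CompleteSpace H]

section op

lemma vn_smul {M : VonNeumannAlgebra H} (c : ℂ) {x : H →L[ℂ] H} (hx : x ∈ M) : c • x ∈ M :=
  M.toStarSubalgebra.smul_mem (x := x) hx c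

/-- the sum of `x x*` over a Bessel family -/
lemma exists_sum {ι : Type} (x : ι → (H →L[ℂ] H))
    (hx : ∀ (s : Finset ι) (ζ : H), ∑ i ∈ s, ‖star (x i) ζ‖ ^ 2 ≤ ‖ζ‖ ^ 2) :
    ∃ K : H →L[ℂ] H, (∀ ξ η, HasSum (fun i => ⟪star (x i) η, star (x i) ξ⟫_ℂ) ⟪η, K ξ⟫_ℂ) ∧
      ∀ ζ, HasSum (fun i => ‖star (x i) ζ‖ ^ 2) (⟪ζ, K ζ⟫_ℂ).re ∧ (⟪ζ, K ζ⟫_ℂ).re ≤ ‖ζ‖ ^ 2 := by
  have hs2 : ∀ ζ, Summable (fun i => ‖star (x i) ζ‖ ^ 2) := fun ζ =>
    summable_of_sum_le (fun i => by positivity) (fun s => hx s ζ)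
  have hle : ∀ ξ η (s : Finset ι), ∑ i ∈ s, ‖⟪star (x i) η, star (x i) ξ⟫_ℂ‖ ≤ ‖ξ‖ * ‖η‖ := by
    intro ξ η s
    have h1 : ∑ i ∈ s, ‖⟪star (x i) η, star (x i) ξ⟫_ℂ‖ ≤
        ∑ i ∈ s, ‖star (x i) η‖ * ‖star (x i) ξ‖ :=
      Finset.sum_le_sum fun i _ => norm_inner_le_norm _ _
    have h2 : (∑ i ∈ s, ‖star (x i) η‖ * ‖star (x i) ξ‖) ^ 2 ≤ (‖ξ‖ * ‖η‖) ^ 2 := by
      refine (Finset.sum_mul_sq_le_sq_mul_sq s _ _).trans ?_
      rw [mul_pow, mul_comm (‖ξ‖ ^ 2)]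
      exact mul_le_mul (hx s η) (hx s ξ) (Finset.sum_nonneg fun i _ => by positivity) (by positivity)
    exact h1.trans (le_of_sq_le_sq h2 (by positivity))
  have hs : ∀ ξ η, Summable (fun i => ⟪star (x i) η, star (x i) ξ⟫_ℂ) := fun ξ η =>
    Summable.of_norm (summable_of_sum_le (fun i => norm_nonneg _) (hle ξ η))
  obtain ⟨K, hK1, hK⟩ := exists_op_of_form
    (fun ξ η => ∑' i, ⟪star (x i) η, star (x i) ξ⟫_ℂ) 1 zero_le_one
    (by
      intro ξ ξ' η
      rw [← (hs ξ η).tsum_add (hs ξ' η)]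
      exact tsum_congr fun i => by rw [map_add, inner_add_right])
    (by
      intro c ξ η
      rw [← tsum_mul_left]
      exact tsum_congr fun i => by rw [map_smul, inner_smul_right])
    (by
      intro ξ η η'
      rw [← (hs ξ η).tsum_add (hs ξ η')]
      exact tsum_congr fun i => by rw [map_add, inner_add_left])
    (by
      intro c ξ η
      rw [← tsum_mul_left]
      exact tsum_congr fun i => by rw [map_smul, inner_smul_left])
    (by
      intro ξ η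
      rw [one_mul]
      refine (norm_tsum_le_tsum_norm (hs ξ η).norm).trans ?_
      exact (hs ξ η).norm.tsum_le_of_sum_le (hle ξ η))
  have h1 : ∀ ξ η, HasSum (fun i => ⟪star (x i) η, star (x i) ξ⟫_ℂ) ⟪η, K ξ⟫_ℂ := by
    intro ξ η
    rw [hK]
    exact (hs ξ η).hasSum
  have h2 : ∀ ζ, HasSum (fun i => ‖star (x i) ζ‖ ^ 2) (⟪ζ, K ζ⟫_ℂ).re := by
    intro ζ
    have h3 := Complex.hasSum_re (h1 ζ ζ)
    have h4 : (fun i => ‖star (x i) ζ‖ ^ 2) = fun i => (⟪star (x i) ζ, star (x i) ζ⟫_ℂ).re := by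
      funext i
      rw [inner_self_eq_norm_sq_to_K]
      norm_cast
    rw [h4]
    exact h3
  exact ⟨K, h1, fun ζ => ⟨h2 ζ, hasSum_le_of_sum_le (h2 ζ) fun s => hx s ζ⟩⟩

/-- families of pairs with `∑ x x* ≤ 1` -/
def IsBes (X : Set ((H →L[ℂ] H) × ℕ)) : Prop :=
  ∀ s : Finset ((H →L[ℂ] H) × ℕ), (s : Set ((H →L[ℂ] H) × ℕ)) ⊆ X →
    ∀ ζ : H, ∑ p ∈ s, ‖star p.1 ζ‖ ^ 2 ≤ ‖ζ‖ ^ 2

end op

variable (S : Sys H)

section sub

variable {G : VonNeumannAlgebra H} (hG : ∀ x ∈ G, x ∈ S.A)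

include hG in
/-- Parseval frames exist. -/
theorem Sys.exists_frame : ∃ (ι : Type) (x : ι → (H →L[ℂ] H)),
    (∀ i, x i ∈ S.rm G ∧ x i * S.e G = x i) ∧
    ∀ ζ, HasSum (fun i => ‖star (x i) ζ‖ ^ 2) (‖ζ‖ ^ 2) := by
  classical
  let 𝒮 : Set (Set ((H →L[ℂ] H) × ℕ)) :=
    {X | IsBes X ∧ ∀ p ∈ X, p.1 ∈ S.rm G ∧ p.1 * S.e G = p.1}
  obtain ⟨X, hX⟩ := zorn_subset 𝒮 (by
    intro c hc hchain
    rcases c.eq_empty_or_nonempty with rfl | hne
    · refine ⟨∅, ⟨?_, by simp⟩, by simp⟩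
      intro s hs ζ
      have : s = ∅ := by simpa using hs
      subst this
      simp
    · refine ⟨⋃₀ c, ⟨?_, ?_⟩, fun s hs => Set.subset_sUnion_of_mem hs⟩
      · intro s hs ζ
        obtain ⟨t, ht, hst⟩ := hchain.directedOn.exists_mem_subset_of_finset_subset_biUnion hne
          (s := s) (f := fun t => t) (by rwa [Set.sUnion_eq_biUnion] at hs)
        exact (hc ht).1 s hst ζ
      · rintro p ⟨t, ht, hp⟩
        exact (hc ht).2 p hp)
  have hX1 : IsBes X := hX.1.1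
  have hX2 : ∀ p ∈ X, p.1 ∈ S.rm G ∧ p.1 * S.e G = p.1 := hX.1.2
  have hbes : ∀ (s : Finset X) (ζ : H), ∑ i ∈ s, ‖star (i.1.1) ζ‖ ^ 2 ≤ ‖ζ‖ ^ 2 := by
    intro s ζ
    have := hX1 (s.map (Function.Embedding.subtype _)) (by
      intro p hp
      simp only [Finset.coe_map, Function.Embedding.subtype_apply, Set.mem_image, SetLike.mem_coe] at hp
      obtain ⟨q, -, rfl⟩ := hp
      exact q.2) ζ
    rwa [Finset.sum_map] at this
  obtain ⟨K, hK1, hK2⟩ := exists_sum (fun i : X => i.1.1) hbes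
  have hKs : star K = K := by
    refine star_eq_of_inner fun ξ η => ?_
    have h1 := hK1 ξ η
    have h2 := hK1 η ξ
    have h3 : HasSum (fun i : X => ⟪star i.1.1 η, star i.1.1 ξ⟫_ℂ) ⟪K η, ξ⟫_ℂ := by
      have := (Complex.hasSum_conj'.2 h2 : HasSum (fun i : X => (starRingEnd ℂ)
        ⟪star i.1.1 ξ, star i.1.1 η⟫_ℂ) ((starRingEnd ℂ) ⟪ξ, K η⟫_ℂ))
      simpa only [inner_conj_symm] using this
    have h4 := h1.unique h3
    rw [← inner_conj_symm, h4, inner_conj_symm]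
  set R : H →L[ℂ] H := 1 - K with hR
  have hRs : star R = R := by rw [hR, star_sub, star_one, hKs]
  have hRre : ∀ ζ, (⟪ζ, R ζ⟫_ℂ).re = ‖ζ‖ ^ 2 - (⟪ζ, K ζ⟫_ℂ).re := by
    intro ζ
    rw [hR, sub_apply, inner_sub_right, Complex.sub_re]
    congr 1
    show (⟪ζ, ζ⟫_ℂ).re = _
    rw [inner_self_eq_norm_sq_to_K]
    norm_cast
  have hR0 : 0 ≤ R := by
    rw [le_iff_re (star_zero _) hRs]
    intro v
    rw [hRre]
    simpa using (hK2 v).2
  have hR1 : R ≤ 1 := by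
    rw [le_iff_re hRs (star_one _)]
    intro v
    rw [hRre]
    have h1 : (⟪v, (1 : H →L[ℂ] H) v⟫_ℂ).re = ‖v‖ ^ 2 := by
      show (⟪v, v⟫_ℂ).re = _
      rw [inner_self_eq_norm_sq_to_K]
      norm_cast
    rw [h1]
    have : 0 ≤ (⟪v, K v⟫_ℂ).re := (hK2 v).1.nonneg fun i => by positivity
    linarith
  have hRR : ∀ ζ, ‖R ζ‖ ^ 2 ≤ (⟪ζ, R ζ⟫_ℂ).re := by
    intro ζ
    have h1 : 0 ≤ R * (1 - R) := Commute.mul_nonneg hR0 (sub_nonneg.2 hR1)
      ((Commute.one_right R).sub_right (Commute.refl R))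
    have h2 := re_of_le h1 ζ
    have h3 : R * (1 - R) = R - star R * R := by rw [hRs, mul_sub, mul_one]
    rw [h3, sub_apply, inner_sub_right, Complex.sub_re, ← norm_sq_re] at h2
    have h4 : (⟪ζ, (0 : H →L[ℂ] H) ζ⟫_ℂ).re = 0 := by simp
    linarith
  have hRrm : R ∈ S.rm G := by
    refine sub_mem (one_mem _) ?_
    rw [S.mem_rm]
    intro g hg
    ext ξ
    refine ext_inner_left ℂ fun η => ?_
    show ⟪η, S.jj g (K ξ)⟫_ℂ = ⟪η, K (S.jj g ξ)⟫_ℂ
    rw [inner_star', S.jj_star]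
    refine (hK1 ξ (S.jj (star g) η)).unique ?_
    have h1 := hK1 (S.jj g ξ) η
    have h2 : (fun i : X => ⟪star i.1.1 (S.jj (star g) η), star i.1.1 ξ⟫_ℂ) =
        fun i : X => ⟪star i.1.1 η, star i.1.1 (S.jj g ξ)⟫_ℂ := by
      funext i
      have h3 : star i.1.1 ∈ S.rm G := star_mem (hX2 i.1 i.2).1
      have h4 : star i.1.1 (S.jj (star g) η) = S.jj (star g) (star i.1.1 η) :=
        (DFunLike.congr_fun ((S.mem_rm.1 h3) _ (star_mem hg)) η).symm
      have h5 : star i.1.1 (S.jj g ξ) = S.jj g (star i.1.1 ξ) :=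
        (DFunLike.congr_fun ((S.mem_rm.1 h3) _ hg) ξ).symm
      rw [h4, h5, inner_star' (S.jj g), S.jj_star]
    rw [h2]
    exact h1
  have hRzero : R = 0 := by
    by_contra hne
    obtain ⟨a, ha, hRa⟩ : ∃ a ∈ S.A, R (a S.Ω) ≠ 0 := by
      by_contra hcon
      push Not at hcon
      exact hne (S.op_ext fun a ha => by rw [hcon a ha]; rfl)
    let c : ℝ := (1 + ‖a‖)⁻¹
    have hc : 0 < c := by positivity
    have hca : c * ‖a‖ ≤ 1 := by
      show (1 + ‖a‖)⁻¹ * ‖a‖ ≤ 1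
      rw [inv_mul_le_iff₀ (by positivity)]
      linarith [norm_nonneg a]
    let y : H →L[ℂ] H := (c : ℂ) • (R * a * S.e G)
    have hy0 : y ≠ 0 := by
      intro h
      have h1 : y S.Ω = (c : ℂ) • R (a S.Ω) := by
        show (c : ℂ) • R (a (S.e G S.Ω)) = _
        rw [S.e_Ω]
      rw [h] at h1
      have h2 := smul_eq_zero.1 h1.symm
      rcases h2 with h2 | h2
      · exact hc.ne' (by exact_mod_cast h2)
      · exact hRa h2
    have hyrm : y ∈ S.rm G := by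
      exact vn_smul _ (mul_mem (mul_mem hRrm (S.A_rm hG ha)) (S.e_mem_rm hG))
    have hye : y * S.e G = y := by
      show ((c : ℂ) • (R * a * S.e G)) * S.e G = _
      rw [smul_mul_assoc, mul_assoc _ (S.e G), S.e_idem]
    have hyR : ∀ ζ, ‖star y ζ‖ ^ 2 ≤ (⟪ζ, R ζ⟫_ℂ).re := by
      intro ζ
      refine le_trans ?_ (hRR ζ)
      refine pow_le_pow_left₀ (norm_nonneg _) ?_ 2
      have h1 : star y ζ = (c : ℂ) • (S.e G (star a (R ζ))) := by
        have : star y = (c : ℂ) • (S.e G * (star a * R)) := by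
          show star ((c : ℂ) • (R * a * S.e G)) = _
          rw [star_smul, star_mul, star_mul, hRs, S.e_star]
          simp
        rw [this]
        rfl
      rw [h1, norm_smul, Complex.norm_real, Real.norm_of_nonneg hc.le]
      have h2 : ‖S.e G (star a (R ζ))‖ ≤ ‖a‖ * ‖R ζ‖ := by
        refine (((S.e G).le_opNorm _).trans ?_ : _ ≤ 1 * (‖a‖ * ‖R ζ‖)) |>.trans_eq (one_mul _)
        refine mul_le_mul (Submodule.starProjection_norm_le _) ?_ (norm_nonneg _) zero_le_one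
        have := (star a).le_opNorm (R ζ)
        rwa [norm_star] at this
      calc c * ‖S.e G (star a (R ζ))‖ ≤ c * (‖a‖ * ‖R ζ‖) := by gcongr
        _ = (c * ‖a‖) * ‖R ζ‖ := by ring
        _ ≤ 1 * ‖R ζ‖ := by gcongr
        _ = ‖R ζ‖ := one_mul _
    obtain ⟨n, hn⟩ : ∃ n : ℕ, (y, n) ∉ X := by
      by_contra hcon
      push Not at hcon
      apply hy0
      have h1 : ∀ ζ, star y ζ = 0 := by
        intro ζ
        have h2 : ∀ N : ℕ, (N : ℝ) * ‖star y ζ‖ ^ 2 ≤ ‖ζ‖ ^ 2 := by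
          intro N
          have := hX1 ((Finset.range N).image fun n => (y, n)) (by
            intro p hp
            simp only [Finset.coe_image, Set.mem_image] at hp
            obtain ⟨n, -, rfl⟩ := hp
            exact hcon n) ζ
          rw [Finset.sum_image (fun a _ b _ h => (Prod.ext_iff.1 h).2)] at this
          simpa using this
        by_contra h3
        have h4 : 0 < ‖star y ζ‖ ^ 2 := by positivity
        obtain ⟨N, hN⟩ := exists_nat_gt (‖ζ‖ ^ 2 / ‖star y ζ‖ ^ 2)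
        rw [div_lt_iff₀ h4] at hN
        exact absurd (h2 N) (not_le.2 hN)
      have h5 : star y = 0 := by
        ext ζ
        rw [h1 ζ]
        rfl
      rw [← star_star y, h5, star_zero]
    have hX' : insert (y, n) X ∈ 𝒮 := by
      refine ⟨?_, ?_⟩
      · intro s hs ζ
        have h1 : ∑ p ∈ s, ‖star p.1 ζ‖ ^ 2 ≤
            ‖star y ζ‖ ^ 2 + ∑ p ∈ s.erase (y, n), ‖star p.1 ζ‖ ^ 2 := by
          by_cases h : (y, n) ∈ s
          · rw [← Finset.add_sum_erase s _ h]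
          · rw [Finset.erase_eq_of_notMem h]
            have : 0 ≤ ‖star y ζ‖ ^ 2 := by positivity
            linarith
        have h2 : ∑ p ∈ s.erase (y, n), ‖star p.1 ζ‖ ^ 2 ≤ (⟪ζ, K ζ⟫_ℂ).re := by
          have h3 : ∀ p ∈ s.erase (y, n), p ∈ X := by
            intro p hp
            have h4 := hs (Finset.mem_of_mem_erase hp)
            exact h4.resolve_left (Finset.ne_of_mem_erase hp)
          let em : {p // p ∈ s.erase (y, n)} ↪ X :=
            ⟨fun p => (⟨p.1, h3 p.1 p.2⟩ : X), fun a b h => Subtype.ext (congrArg (fun q : X => q.1) h)⟩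
          have h5 := sum_le_hasSum ((s.erase (y, n)).attach.map em)
            (fun i _ => by positivity) (hK2 ζ).1
          rw [Finset.sum_map] at h5
          have h6 := Finset.sum_attach (s.erase (y, n)) (fun p => ‖star p.1 ζ‖ ^ 2)
          rw [← h6]
          exact h5
        have h7 := hyR ζ
        have h8 := hRre ζ
        linarith
      · intro p hp
        rcases hp with rfl | hp
        · exact ⟨hyrm, hye⟩
        · exact hX2 p hp
    have h9 := hX.2 hX' (Set.subset_insert _ _)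
    exact hn (h9 (Set.mem_insert _ _))
  refine ⟨X, fun i => i.1.1, fun i => hX2 i.1 i.2, fun ζ => ?_⟩
  have h1 := (hK2 ζ).1
  have h2 := hRre ζ
  rw [hRzero] at h2
  have h3 : (⟪ζ, (0 : H →L[ℂ] H) ζ⟫_ℂ).re = 0 := by simp
  have h4 : (⟪ζ, K ζ⟫_ℂ).re = ‖ζ‖ ^ 2 := by linarith
  rwa [h4] at h1

end sub

end Pool.Agent.R298.BC
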