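import Mathlib
import Pool.Agent.R298.BC.Frame

/-!
The trace on the basic construction: formula, and comparison of projections.
-/

set_option autoImplicit false
set_option linter.unusedSectionVars false
set_option linter.unusedVariables false

open scoped InnerProductSpace ENNReal

namespace Pool.Agent.R298.BC

variable {H : Type} [NormedAddCommGroup H] [InnerProductSpace ℂ H] [CompleteSpace H]
variable {S : Sys H} {G : VonNeumannAlgebra H} {τ : (H →L[ℂ] H) → ℝ≥0∞}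

section basics

variable (hG : ∀ x ∈ G, x ∈ S.A) (hτ : IsBar S G τ)

include hG hτ

lemma bar_zero : τ 0 = 0 := by
  have := hτ.smul 0 (zero_mem _) le_rfl 0
  simpa using this

lemma bar_add {x y : H →L[ℂ] H} (hx : x ∈ S.rm G) (hy : y ∈ S.rm G) (hx0 : 0 ≤ x) (hy0 : 0 ≤ y) :
    τ (x + y) = τ x + τ y := by
  rw [← S.basic_eq hG] at hx hy
  exact hτ.add x hx y hy hx0 hy0

lemma bar_mono {x y : H →L[ℂ] H} (hx : x ∈ S.rm G) (hy : y ∈ S.rm G) (hx0 : 0 ≤ x) (hxy : x ≤ y) :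
    τ x ≤ τ y := by
  have h1 : y = x + (y - x) := by abel
  rw [h1, bar_add hG hτ hx (sub_mem hy hx) hx0 (sub_nonneg.2 hxy)]
  exact le_self_add

lemma bar_sum {ι : Type} (s : Finset ι) (y : ι → (H →L[ℂ] H)) (hy : ∀ i, y i ∈ S.rm G)
    (hy0 : ∀ i, 0 ≤ y i) : τ (∑ i ∈ s, y i) = ∑ i ∈ s, τ (y i) := by
  classical
  induction s using Finset.induction_on with
  | empty => simpa using bar_zero hG hτ
  | insert a s ha ih =>
    rw [Finset.sum_insert ha, Finset.sum_insert ha, bar_add hG hτ (hy a) (sum_mem fun i _ => hy i)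
      (hy0 a) (Finset.sum_nonneg fun i _ => hy0 i), ih]

lemma bar_trace {x : H →L[ℂ] H} (hx : x ∈ S.rm G) : τ (star x * x) = τ (x * star x) := by
  rw [← S.basic_eq hG] at hx
  exact hτ.trace x hx

/-- the trace on the corner `e ⟨A, e⟩ e` -/
lemma bar_corner {Y : H →L[ℂ] H} (hY : Y ∈ S.rm G) (hYe : Y * S.e G = Y) :
    τ (star Y * Y) = ENNReal.ofReal (‖Y S.Ω‖ ^ 2) := by
  set T : H →L[ℂ] H := star Y * Y with hT
  have hT0 : 0 ≤ T := star_mul_self_nonneg Y
  have hTe : T * S.e G = T := by rw [hT, mul_assoc, hYe]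
  obtain ⟨W, hW0, hWW, hWc⟩ := exists_sqrt T hT0
  have hWs : star W = W := star_of_nonneg hW0
  have hWG : W ∈ S.rm G := by
    refine mem_of_comm _ fun y hy => ?_
    have h1 : T * y = y * T := mem_comm.1 hy T (mul_mem (star_mem hY) hY)
    exact (hWc y h1).symm
  have hWe : W * S.e G = W := by
    have h1 : W * (1 - S.e G) = 0 := by
      have h2 : star (W * (1 - S.e G)) * (W * (1 - S.e G)) = 0 := by
        rw [star_mul, hWs, mul_assoc, ← mul_assoc W W, hWW, mul_sub, mul_one, hTe, sub_self,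
          mul_zero]
      exact (CStarRing.star_mul_self_eq_zero_iff _).1 h2
    rw [mul_sub, mul_one, sub_eq_zero] at h1
    exact h1.symm
  have heW : S.e G * W = W := by
    have := congrArg star hWe
    rwa [star_mul, hWs, S.e_star] at this
  obtain ⟨g, hg, hge⟩ := S.exists_corner hG hWG
  rw [heW, hWe] at hge
  have h1 : T = g * S.e G * star g := by
    have h2 : star W = S.e G * star g := by rw [hge, star_mul, S.e_star]
    calc T = W * star W := by rw [hWs, hWW]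
      _ = (g * S.e G) * (S.e G * star g) := by rw [h2, hge]
      _ = g * (S.e G * S.e G) * star g := by noncomm_ring
      _ = g * S.e G * star g := by rw [S.e_idem]
  rw [h1, hτ.bar g (hG g hg)]
  congr 1
  rw [norm_sq_re, ← hT, h1]
  congr 1
  show ⟪S.Ω, g (star g S.Ω)⟫_ℂ = ⟪S.Ω, g (S.e G (star g S.Ω))⟫_ℂ
  have e2 : S.e G (star g S.Ω) = star g S.Ω := sp_of_mem (S.sp_gen (star_mem hg))
  rw [e2]

end basics

section formula

variable (hG : ∀ x ∈ G, x ∈ S.A) (hτ : IsBar S G τ)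
variable {ι : Type} {x : ι → (H →L[ℂ] H)} (hx : ∀ i, x i ∈ S.rm G ∧ x i * S.e G = x i)
  (hfr : ∀ ζ, HasSum (fun i => ‖star (x i) ζ‖ ^ 2) (‖ζ‖ ^ 2))

lemma re_sum_mul_star {ι : Type} (s : Finset ι) (y : ι → (H →L[ℂ] H)) (ζ : H) :
    (⟪ζ, (∑ i ∈ s, y i * star (y i)) ζ⟫_ℂ).re = ∑ i ∈ s, ‖star (y i) ζ‖ ^ 2 := by
  rw [sum_apply, inner_sum, Complex.re_sum]
  refine Finset.sum_congr rfl fun i _ => ?_
  rw [norm_sq_re, star_star]

lemma star_sum_mul_star {ι : Type} (s : Finset ι) (y : ι → (H →L[ℂ] H)) :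
    star (∑ i ∈ s, y i * star (y i)) = ∑ i ∈ s, y i * star (y i) := by
  rw [star_sum]
  exact Finset.sum_congr rfl fun i _ => by rw [star_mul, star_star]

include hG hτ hx hfr in
/-- `τ(Q) = ∑ ‖Q x_i Ω‖²` for projections `Q` -/
lemma bar_formula {Q : H →L[ℂ] H} (hQ : Q ∈ S.rm G) (hQs : star Q = Q) (hQQ : Q * Q = Q) :
    τ Q = ⨆ s : Finset ι, ∑ i ∈ s, ENNReal.ofReal (‖Q (x i S.Ω)‖ ^ 2) := by
  set F : Finset ι → (H →L[ℂ] H) := fun s => ∑ i ∈ s, (Q * x i) * star (Q * x i) with hF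
  have hmem : ∀ i, Q * x i ∈ S.rm G := fun i => mul_mem hQ (hx i).1
  have hstar : ∀ (i : ι) (ζ : H), star (Q * x i) ζ = star (x i) (Q ζ) := by
    intro i ζ
    rw [star_mul, hQs]
    rfl
  have hQn : ∀ ζ, (⟪ζ, Q ζ⟫_ℂ).re = ‖Q ζ‖ ^ 2 := by
    intro ζ
    rw [norm_sq_re, hQs, hQQ]
  have hlub : IsLUB (Set.range F) Q := by
    constructor
    · rintro _ ⟨s, rfl⟩
      rw [le_iff_re (star_sum_mul_star _ _) hQs]
      intro ζ
      rw [re_sum_mul_star, hQn]
      simp only [hstar]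
      exact sum_le_hasSum s (fun i _ => by positivity) (hfr (Q ζ))
    · intro B hB
      have hB0 : 0 ≤ B := by
        have := hB ⟨∅, rfl⟩
        simpa [hF] using this
      rw [le_iff_re hQs (star_of_nonneg hB0)]
      intro ζ
      rw [hQn]
      refine hasSum_le_of_sum_le (hfr (Q ζ)) fun s => ?_
      have h1 := re_of_le (hB ⟨s, rfl⟩) ζ
      rw [re_sum_mul_star] at h1
      simpa only [hstar] using h1
  have hpos : ∀ i, 0 ≤ (Q * x i) * star (Q * x i) := fun i => mul_star_self_nonneg _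
  have hval : ∀ s, τ (F s) = ∑ i ∈ s, ENNReal.ofReal (‖Q (x i S.Ω)‖ ^ 2) := by
    intro s
    rw [hF]
    show τ (∑ i ∈ s, (Q * x i) * star (Q * x i)) = _
    rw [bar_sum hG hτ s _ (fun i => mul_mem (hmem i) (star_mem (hmem i))) hpos]
    refine Finset.sum_congr rfl fun i _ => ?_
    rw [← bar_trace hG hτ (hmem i), bar_corner hG hτ (hmem i) (by rw [mul_assoc, (hx i).2])]
    rfl
  have h1 := hτ.normal (Set.range F) (by
    rintro _ ⟨s, rfl⟩
    rw [S.basic_eq hG]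
    exact ⟨sum_mem fun i _ => mul_mem (hmem i) (star_mem (hmem i)), Finset.sum_nonneg fun i _ => hpos i⟩)
    ⟨F ∅, ∅, rfl⟩ (by
      classical
      rintro _ ⟨s, rfl⟩ _ ⟨t, rfl⟩
      refine ⟨F (s ∪ t), ⟨_, rfl⟩, ?_, ?_⟩
      · exact Finset.sum_le_sum_of_subset_of_nonneg Finset.subset_union_left fun i _ _ => hpos i
      · exact Finset.sum_le_sum_of_subset_of_nonneg Finset.subset_union_right fun i _ _ => hpos i)
    Q (by rw [S.basic_eq hG]; exact hQ) hlub
  rw [h1, iSup_range]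
  exact iSup_congr hval

/-- comparison of projections: if the range of `Q` can be approximated by `M P H`, then
`τ(Q) ≤ τ(P)` -/
theorem bar_compare' (hG : ∀ x ∈ G, x ∈ S.A) (hτ : IsBar S G τ) {Q : H →L[ℂ] H}
    (hQ : Q ∈ S.rm G) (hQs : star Q = Q) (hQQ : Q * Q = Q) (C : ℝ≥0∞)
    (h : ∀ t : Finset H, (∀ ζ ∈ t, Q ζ = ζ) → ∀ ε : ℝ, 0 < ε → ∃ P ∈ S.rm G, star P = P ∧ P * P = P ∧
      τ P ≤ C ∧ ∃ T ∈ S.rm G, ∀ ζ ∈ t, ∃ η, ‖ζ - T (P η)‖ ≤ ε) : τ Q ≤ C := by
  classical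
  obtain ⟨ι, x, hx, hfr⟩ := S.exists_frame hG
  by_cases htop : C = ⊤
  · rw [htop]
    exact le_top
  rw [bar_formula hG hτ hx hfr hQ hQs hQQ]
  refine iSup_le fun s => ?_
  set ζ : ι → H := fun i => Q (x i S.Ω) with hζ
  rw [← ENNReal.ofReal_sum_of_nonneg (fun i _ => by positivity)]
  refine ENNReal.ofReal_le_of_le_toReal ?_
  refine le_of_forall_pos_le_add fun ε hε => ?_
  set δ : ℝ := ε / (1 + ∑ i ∈ s, ‖ζ i‖) with hδ
  have hden : 0 < 1 + ∑ i ∈ s, ‖ζ i‖ := by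
    have : 0 ≤ ∑ i ∈ s, ‖ζ i‖ := Finset.sum_nonneg fun i _ => norm_nonneg _
    linarith
  have hδ0 : 0 < δ := by positivity
  -- the approximant
  obtain ⟨P, hP, hPs, hPP, hPC, T, hT, hTζ⟩ := h (s.image ζ) (by
    intro v hv
    obtain ⟨i, -, rfl⟩ := Finset.mem_image.1 hv
    show (Q * Q) (x i S.Ω) = _
    rw [hQQ]) (δ / 4) (by positivity)
  obtain ⟨Z, hZ, hZP, hZζ⟩ : ∃ Z ∈ S.rm G, star Z * Z ≤ P ∧
      ∀ i ∈ s, ‖ζ i - Z (star Z (ζ i))‖ ≤ δ := by
    have hTζ' : ∀ i : ι, ∃ η, i ∈ s → ‖ζ i - T (P η)‖ ≤ δ / 4 := by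
      intro i
      by_cases hi : i ∈ s
      · obtain ⟨η, hη⟩ := hTζ (ζ i) (Finset.mem_image_of_mem _ hi)
        exact ⟨η, fun _ => hη⟩
      · exact ⟨0, fun h => absurd h hi⟩
    choose η hη using hTζ'
    set c : ℝ := (δ / 4) ^ 2 / (1 + ∑ i ∈ s, ‖η i‖ ^ 2) with hc
    have hden2 : 0 < 1 + ∑ i ∈ s, ‖η i‖ ^ 2 := by
      have : 0 ≤ ∑ i ∈ s, ‖η i‖ ^ 2 := Finset.sum_nonneg fun i _ => by positivity
      linarith
    have hc0 : 0 < c := by positivity
    obtain ⟨Y, hYs, hYc, hYle, hYη⟩ := exists_res (T * P) c hc0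
    have hTT : star (T * P) * (T * P) ∈ S.rm G := mul_mem (star_mem (mul_mem hT hP)) (mul_mem hT hP)
    have hYG : Y ∈ S.rm G := by
      refine mem_of_comm _ fun y hy => ?_
      exact (hYc y (mem_comm.1 hy _ hTT)).symm
    have hYP : Y * P = P * Y := by
      refine hYc P ?_
      show star (T * P) * (T * P) * P = P * (star (T * P) * (T * P))
      rw [star_mul, hPs]
      have e1 : P * star T * (T * P) * P = P * star T * T * (P * P) := by noncomm_ring
      have e2 : P * (P * star T * (T * P)) = (P * P) * star T * T * P := by noncomm_ring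
      rw [e1, e2, hPP]
    set Z : H →L[ℂ] H := T * P * Y with hZdef
    have hZP : Z * P = Z := by
      rw [hZdef, mul_assoc, hYP, ← mul_assoc, mul_assoc T P P, hPP]
    have hZle : star Z * Z ≤ P := by
      have h1 := conj_le hYle P
      rw [hPs, mul_one, hPP] at h1
      have h2 : P * (star Z * Z) * P = star Z * Z := by
        have h3 : P * star Z = star Z := by
          have := congrArg star hZP
          rwa [star_mul, hPs] at this
        rw [← mul_assoc, h3, mul_assoc, hZP]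
      rwa [h2] at h1
    have hP1 : P ≤ 1 := by
      have h1 : 0 ≤ star (1 - P) * (1 - P) := star_mul_self_nonneg _
      have h2 : star (1 - P) * (1 - P) = 1 - P := by
        rw [star_sub, star_one, hPs, mul_sub, sub_mul, sub_mul, hPP]
        simp
      rw [h2] at h1
      exact sub_nonneg.1 h1
    have hZn : ‖Z‖ ≤ 1 := norm_le_one_of_le hZle hP1
    refine ⟨Z, mul_mem (mul_mem hT hP) hYG, hZle, fun i hi => ?_⟩
    have h1 := hη i hi
    set w : H := (T * P) (η i) with hw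
    have h1' : ‖ζ i - w‖ ≤ δ / 4 := h1
    have h2 : ‖w - Z (star Z w)‖ ≤ δ / 4 := by
      have h3 := hYη (η i)
      have h4 : c * ‖η i‖ ^ 2 ≤ (δ / 4) ^ 2 := by
        have h5 : ‖η i‖ ^ 2 ≤ 1 + ∑ i ∈ s, ‖η i‖ ^ 2 := by
          have := Finset.single_le_sum (f := fun i => ‖η i‖ ^ 2) (fun i _ => by positivity) hi
          linarith
        rw [hc, div_mul_eq_mul_div, div_le_iff₀ hden2]
        exact mul_le_mul_of_nonneg_left h5 (by positivity)
      exact le_of_sq_le_sq (h3.trans h4) (by positivity)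
    have h3 : ‖Z (star Z (w - ζ i))‖ ≤ δ / 4 := by
      calc ‖Z (star Z (w - ζ i))‖ ≤ ‖Z‖ * ‖star Z (w - ζ i)‖ := Z.le_opNorm _
        _ ≤ ‖Z‖ * (‖star Z‖ * ‖w - ζ i‖) := by
            gcongr
            exact (star Z).le_opNorm _
        _ ≤ 1 * (1 * (δ / 4)) := by
            rw [norm_star]
            gcongr
            rw [norm_sub_rev]
            exact h1'
        _ = δ / 4 := by ring
    have h4 : ζ i - Z (star Z (ζ i)) = (ζ i - w) + (w - Z (star Z w)) + Z (star Z (w - ζ i)) := by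
      rw [map_sub, map_sub]
      abel
    rw [h4]
    refine (norm_add_le _ _).trans ?_
    have := norm_add_le (ζ i - w) (w - Z (star Z w))
    linarith
  -- the main estimate
  have hmain : ∑ i ∈ s, ENNReal.ofReal (‖star Z (ζ i)‖ ^ 2) ≤ C := by
    refine le_trans ?_ hPC
    have hm : ∀ i, star Z * (Q * x i) ∈ S.rm G := fun i => mul_mem (star_mem hZ) (mul_mem hQ (hx i).1)
    have h1 : ∑ i ∈ s, ENNReal.ofReal (‖star Z (ζ i)‖ ^ 2) =
        τ (∑ i ∈ s, (star Z * (Q * x i)) * star (star Z * (Q * x i))) := by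
      rw [bar_sum hG hτ s _ (fun i => mul_mem (hm i) (star_mem (hm i)))
        (fun i => mul_star_self_nonneg _)]
      refine Finset.sum_congr rfl fun i _ => ?_
      rw [← bar_trace hG hτ (hm i), bar_corner hG hτ (hm i)
        (by rw [mul_assoc, mul_assoc, (hx i).2])]
      rfl
    rw [h1]
    have h2 : ∑ i ∈ s, (star Z * (Q * x i)) * star (star Z * (Q * x i)) ≤ star Z * Z := by
      rw [le_iff_re (star_sum_mul_star _ _) (by rw [star_mul, star_star])]
      intro v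
      rw [re_sum_mul_star, ← norm_sq_re]
      have h3 : ∀ i, star (star Z * (Q * x i)) v = star (x i) (Q (Z v)) := by
        intro i
        rw [star_mul, star_mul, star_star, hQs]
        rfl
      simp only [h3]
      refine (sum_le_hasSum s (fun i _ => by positivity) (hfr (Q (Z v)))).trans ?_
      have h4 : ‖Q‖ ≤ 1 := by
        refine norm_le_one_of_le (P := Q) (by rw [hQs, hQQ]) ?_
        have h1 : 0 ≤ star (1 - Q) * (1 - Q) := star_mul_self_nonneg _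
        have h2 : star (1 - Q) * (1 - Q) = 1 - Q := by
          rw [star_sub, star_one, hQs, mul_sub, sub_mul, sub_mul, hQQ]
          simp
        rw [h2] at h1
        exact sub_nonneg.1 h1
      have h5 : ‖Q (Z v)‖ ≤ ‖Z v‖ := by
        refine (Q.le_opNorm _).trans ?_
        calc ‖Q‖ * ‖Z v‖ ≤ 1 * ‖Z v‖ := by gcongr
          _ = ‖Z v‖ := one_mul _
      gcongr
    refine (bar_mono hG hτ (sum_mem fun i _ => mul_mem (hm i) (star_mem (hm i)))
      (mul_mem (star_mem hZ) hZ) (Finset.sum_nonneg fun i _ => mul_star_self_nonneg _) h2).trans ?_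
    exact bar_mono hG hτ (mul_mem (star_mem hZ) hZ) hP (star_mul_self_nonneg _) hZP
  have hmain' : ∑ i ∈ s, ‖star Z (ζ i)‖ ^ 2 ≤ C.toReal := by
    rw [← ENNReal.ofReal_sum_of_nonneg (fun i _ => by positivity)] at hmain
    exact (ENNReal.ofReal_le_iff_le_toReal htop).1 hmain
  have hterm : ∀ i ∈ s, ‖ζ i‖ ^ 2 ≤ ‖star Z (ζ i)‖ ^ 2 + δ * ‖ζ i‖ := by
    intro i hi
    have h1 : (⟪ζ i, ζ i⟫_ℂ).re = ‖ζ i‖ ^ 2 := by
      rw [inner_self_eq_norm_sq_to_K]
      norm_cast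
    have h2 : ζ i = Z (star Z (ζ i)) + (ζ i - Z (star Z (ζ i))) := by abel
    have h3 : (⟪ζ i, Z (star Z (ζ i))⟫_ℂ).re = ‖star Z (ζ i)‖ ^ 2 := by
      rw [norm_sq_re, star_star]
      rfl
    have h4 : (⟪ζ i, ζ i - Z (star Z (ζ i))⟫_ℂ).re ≤ δ * ‖ζ i‖ := by
      refine (Complex.re_le_norm _).trans ((norm_inner_le_norm _ _).trans ?_)
      rw [mul_comm]
      exact mul_le_mul_of_nonneg_right (hZζ i hi) (norm_nonneg _)
    have h5 : (⟪ζ i, ζ i⟫_ℂ).re = (⟪ζ i, Z (star Z (ζ i))⟫_ℂ).re +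
        (⟪ζ i, ζ i - Z (star Z (ζ i))⟫_ℂ).re := by
      rw [← Complex.add_re, ← inner_add_right, ← h2]
    rw [← h1, h5, h3]
    linarith
  calc ∑ i ∈ s, ‖ζ i‖ ^ 2 ≤ ∑ i ∈ s, (‖star Z (ζ i)‖ ^ 2 + δ * ‖ζ i‖) := Finset.sum_le_sum hterm
    _ = ∑ i ∈ s, ‖star Z (ζ i)‖ ^ 2 + δ * ∑ i ∈ s, ‖ζ i‖ := by
        rw [Finset.sum_add_distrib, Finset.mul_sum]
    _ ≤ C.toReal + ε := by
        have h1 : δ * ∑ i ∈ s, ‖ζ i‖ ≤ ε := by
          rw [hδ, div_mul_eq_mul_div, div_le_iff₀ hden]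
          nlinarith
        linarith

theorem bar_compare (hG : ∀ x ∈ G, x ∈ S.A) (hτ : IsBar S G τ) {P Q : H →L[ℂ] H} (hP : P ∈ S.rm G)
    (hPs : star P = P) (hPP : P * P = P) (hQ : Q ∈ S.rm G) (hQs : star Q = Q) (hQQ : Q * Q = Q)
    (h : ∀ t : Finset H, (∀ ζ ∈ t, Q ζ = ζ) → ∀ ε : ℝ, 0 < ε → ∃ T ∈ S.rm G, ∀ ζ ∈ t, ∃ η,
      ‖ζ - T (P η)‖ ≤ ε) : τ Q ≤ τ P :=
  bar_compare' hG hτ hQ hQs hQQ (τ P) fun t ht ε hε => ⟨P, hP, hPs, hPP, le_rfl, h t ht ε hε⟩

end formula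

end Pool.Agent.R298.BC
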