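import Mathlib
import Pool.Agent.R298.BC.Trace

/-!
Existence and uniqueness of the trace on the basic construction.
-/

set_option autoImplicit false
set_option linter.unusedSectionVars false
set_option linter.unusedVariables false

open scoped InnerProductSpace ENNReal Topology

namespace Pool.Agent.R298.BC

variable {H : Type} [NormedAddCommGroup H] [InnerProductSpace ℂ H] [CompleteSpace H]

section vigier

/-- the least upper bound of a directed set of positive operators is computed pointwise -/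
lemma lub_tendsto {D : Set (H →L[ℂ] H)} (hne : D.Nonempty) (hdir : DirectedOn (· ≤ ·) D)
    (hpos : ∀ x ∈ D, 0 ≤ x) {x : H →L[ℂ] H} (hx : IsLUB D x) (v : H) :
    (⟪v, x v⟫_ℂ).re ≤ ⨆ y : D, (⟪v, (y : H →L[ℂ] H) v⟫_ℂ).re := by
  classical
  have hne' : Nonempty D := hne.to_subtype
  have hdir' : IsDirected D (· ≤ ·) := ⟨fun a b => by
    obtain ⟨c, hc, h1, h2⟩ := hdir a a.2 b b.2
    exact ⟨⟨c, hc⟩, h1, h2⟩⟩
  have hx0 : 0 ≤ x := by
    obtain ⟨y, hy⟩ := hne
    exact (hpos y hy).trans (hx.1 hy)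
  have hre : ∀ w : H, Filter.Tendsto (fun y : D => (⟪w, (y : H →L[ℂ] H) w⟫_ℂ).re) Filter.atTop
      (𝓝 (⨆ y : D, (⟪w, (y : H →L[ℂ] H) w⟫_ℂ).re)) := by
    intro w
    refine tendsto_atTop_ciSup ?_ ?_
    · intro a b hab
      exact re_of_le hab w
    · refine ⟨(⟪w, x w⟫_ℂ).re, ?_⟩
      rintro _ ⟨y, rfl⟩
      exact re_of_le (hx.1 y.2) w
  have hq : ∀ w : H, ∃ c : ℂ, Filter.Tendsto (fun y : D => ⟪w, (y : H →L[ℂ] H) w⟫_ℂ) Filter.atTop
      (𝓝 c) := by
    intro w
    refine ⟨((⨆ y : D, (⟪w, (y : H →L[ℂ] H) w⟫_ℂ).re : ℝ) : ℂ), ?_⟩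
    have h1 := (Complex.continuous_ofReal.tendsto _).comp (hre w)
    refine h1.congr fun y => ?_
    have h2 : 0 ≤ (y : H →L[ℂ] H) := hpos y y.2
    have h3 := (ContinuousLinearMap.nonneg_iff_isPositive _).1 h2
    have h4 := h3.inner_nonneg_right w
    exact (Complex.ext_iff.2 ⟨by simp, by simpa using (Complex.nonneg_iff.1 h4).2⟩)
  have hlim : ∀ v w : H, ∃ c : ℂ, Filter.Tendsto (fun y : D => ⟪w, (y : H →L[ℂ] H) v⟫_ℂ)
      Filter.atTop (𝓝 c) := by
    intro v w
    obtain ⟨c1, h1⟩ := hq (w + v)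
    obtain ⟨c2, h2⟩ := hq (w - v)
    obtain ⟨c3, h3⟩ := hq (w + Complex.I • v)
    obtain ⟨c4, h4⟩ := hq (w - Complex.I • v)
    refine ⟨(c1 - c2 - Complex.I * (c3 - c4)) / 4, ?_⟩
    refine (((h1.sub h2).sub ((h3.sub h4).const_mul Complex.I)).div_const 4).congr fun y => ?_
    simp only [map_add, map_sub, map_smul, inner_add_left, inner_add_right, inner_sub_left,
      inner_sub_right, inner_smul_left, inner_smul_right, Complex.conj_I]
    have hI : Complex.I * Complex.I = -1 := Complex.I_mul_I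
    linear_combination (-(1:ℂ)/2) * ⟪w, (y : H →L[ℂ] H) v⟫_ℂ * hI +
      (1:ℂ)/2 * ⟪v, (y : H →L[ℂ] H) w⟫_ℂ * hI
  choose B hB using hlim
  have hxn : ∀ y : D, ‖(y : H →L[ℂ] H)‖ ≤ ‖x‖ := fun y =>
    CStarAlgebra.norm_le_norm_of_nonneg_of_le (hpos y y.2) (hx.1 y.2)
  obtain ⟨x', hx'n, hx'⟩ := exists_op_of_form B ‖x‖ (norm_nonneg _)
    (by
      intro ξ ξ' η
      refine tendsto_nhds_unique (hB (ξ + ξ') η) (((hB ξ η).add (hB ξ' η)).congr fun y => ?_)
      rw [map_add, inner_add_right])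
    (by
      intro c ξ η
      refine tendsto_nhds_unique (hB (c • ξ) η) (((hB ξ η).const_mul c).congr fun y => ?_)
      rw [map_smul, inner_smul_right])
    (by
      intro ξ η η'
      refine tendsto_nhds_unique (hB ξ (η + η')) (((hB ξ η).add (hB ξ η')).congr fun y => ?_)
      rw [inner_add_left])
    (by
      intro c ξ η
      refine tendsto_nhds_unique (hB ξ (c • η))
        (((hB ξ η).const_mul ((starRingEnd ℂ) c)).congr fun y => ?_)
      rw [inner_smul_left])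
    (by
      intro ξ η
      refine le_of_tendsto (hB ξ η).norm (Filter.Eventually.of_forall fun y => ?_)
      refine (norm_inner_le_norm _ _).trans ?_
      have h1 : ‖(y : H →L[ℂ] H) ξ‖ ≤ ‖x‖ * ‖ξ‖ :=
        ((y : H →L[ℂ] H).le_opNorm ξ).trans (by gcongr; exact hxn y)
      calc ‖η‖ * ‖(y : H →L[ℂ] H) ξ‖ ≤ ‖η‖ * (‖x‖ * ‖ξ‖) := by gcongr
        _ = ‖x‖ * ‖ξ‖ * ‖η‖ := by ring)
  have hx're : ∀ w, (⟪w, x' w⟫_ℂ).re = ⨆ y : D, (⟪w, (y : H →L[ℂ] H) w⟫_ℂ).re := by
    intro w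
    rw [hx']
    refine tendsto_nhds_unique ?_ (hre w)
    exact (Complex.continuous_re.tendsto _).comp (hB w w)
  have hx's : star x' = x' := by
    refine star_eq_of_inner fun ξ η => ?_
    rw [← inner_conj_symm, hx' ξ η, hx' η ξ]
    have h1 := (Complex.continuous_conj.tendsto _).comp (hB ξ η)
    refine tendsto_nhds_unique h1 ((hB η ξ).congr fun y => ?_)
    show ⟪ξ, (y : H →L[ℂ] H) η⟫_ℂ = (starRingEnd ℂ) ⟪η, (y : H →L[ℂ] H) ξ⟫_ℂ
    rw [inner_conj_symm, inner_star, star_of_nonneg (hpos y y.2)]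
  have hub : x' ∈ upperBounds D := by
    intro y hy
    rw [le_iff_re (star_of_nonneg (hpos y hy)) hx's]
    intro w
    rw [hx're]
    refine le_ciSup (f := fun y : D => (⟪w, (y : H →L[ℂ] H) w⟫_ℂ).re) ?_ ⟨y, hy⟩
    refine ⟨(⟪w, x w⟫_ℂ).re, ?_⟩
    rintro _ ⟨z, rfl⟩
    exact re_of_le (hx.1 z.2) w
  rw [← hx're]
  exact re_of_le (hx.2 hub) v

end vigier

section existence

variable {S : Sys H} {G : VonNeumannAlgebra H}

/-- `‖Y Ω‖ = ‖Y* Ω‖` in the corner `e (J G J)' e` -/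
lemma corner_norm (hG : ∀ x ∈ G, x ∈ S.A) {Y : H →L[ℂ] H} (hY : Y ∈ S.rm G)
    (hYe : Y * S.e G = Y) (heY : S.e G * Y = Y) : ‖Y S.Ω‖ ^ 2 = ‖star Y S.Ω‖ ^ 2 := by
  obtain ⟨g, hg, hge⟩ := S.exists_corner hG hY
  rw [heY, hYe] at hge
  have h1 : Y S.Ω = g S.Ω := by
    rw [hge]
    show g (S.e G S.Ω) = _
    rw [S.e_Ω]
  have h2 : star Y = star g * S.e G := by
    rw [hge, star_mul, S.e_star, S.e_comm (star_mem hg)]
  have h3 : star Y S.Ω = star g S.Ω := by
    rw [h2]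
    show star g (S.e G S.Ω) = _
    rw [S.e_Ω]
  rw [h1, h3, norm_sq_re, norm_sq_re, star_star,
    S.tracial (star g) (star_mem (hG g hg)) g (hG g hg)]

variable {ι : Type} (x : ι → (H →L[ℂ] H))

/-- the candidate trace -/
noncomputable def tr (S : Sys H) (x : ι → (H →L[ℂ] H)) (T : H →L[ℂ] H) : ℝ≥0∞ :=
  ∑' i, ENNReal.ofReal (⟪x i S.Ω, T (x i S.Ω)⟫_ℂ).re

variable {x}

lemma re_nonneg_of {T : H →L[ℂ] H} (hT : 0 ≤ T) (v : H) : 0 ≤ (⟪v, T v⟫_ℂ).re := by
  have := re_of_le hT v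
  simpa using this

lemma ofReal_norm_eq (hfr : ∀ ζ, HasSum (fun i => ‖star (x i) ζ‖ ^ 2) (‖ζ‖ ^ 2)) (ζ : H) :
    ENNReal.ofReal (‖ζ‖ ^ 2) = ∑' i, ENNReal.ofReal (‖star (x i) ζ‖ ^ 2) := by
  rw [← (hfr ζ).tsum_eq, ENNReal.ofReal_tsum_of_nonneg (fun i => by positivity) (hfr ζ).summable]

variable (hG : ∀ x ∈ G, x ∈ S.A) (hx : ∀ i, x i ∈ S.rm G ∧ x i * S.e G = x i)
  (hfr : ∀ ζ, HasSum (fun i => ‖star (x i) ζ‖ ^ 2) (‖ζ‖ ^ 2))

lemma tr_star_mul (Z : H →L[ℂ] H) :
    tr S x (star Z * Z) = ∑' i, ENNReal.ofReal (‖Z (x i S.Ω)‖ ^ 2) := by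
  unfold tr
  refine tsum_congr fun i => ?_
  rw [norm_sq_re]

include hx in
lemma corner_e {i j : ι} {X : H →L[ℂ] H} (hX : X ∈ S.rm G) :
    (star (x j) * X * x i) ∈ S.rm G ∧ (star (x j) * X * x i) * S.e G = star (x j) * X * x i ∧
      S.e G * (star (x j) * X * x i) = star (x j) * X * x i := by
  refine ⟨mul_mem (mul_mem (star_mem (hx j).1) hX) (hx i).1, ?_, ?_⟩
  · rw [mul_assoc, (hx i).2]
  · have h1 : S.e G * star (x j) = star (x j) := by
      have := congrArg star (hx j).2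
      rwa [star_mul, S.e_star] at this
    rw [← mul_assoc, ← mul_assoc, h1]

include hG hx hfr in
lemma tr_trace {X : H →L[ℂ] H} (hX : X ∈ S.rm G) : tr S x (star X * X) = tr S x (X * star X) := by
  have h1 : tr S x (X * star X) = tr S x (star (star X) * star X) := by rw [star_star]
  rw [h1, tr_star_mul, tr_star_mul]
  have h2 : ∀ (Z : H →L[ℂ] H) (i : ι), ENNReal.ofReal (‖Z (x i S.Ω)‖ ^ 2) =
      ∑' j, ENNReal.ofReal (‖(star (x j) * Z * x i) S.Ω‖ ^ 2) := fun Z i =>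
    ofReal_norm_eq hfr _
  calc ∑' i, ENNReal.ofReal (‖X (x i S.Ω)‖ ^ 2)
      = ∑' i, ∑' j, ENNReal.ofReal (‖(star (x j) * X * x i) S.Ω‖ ^ 2) :=
        tsum_congr fun i => h2 X i
    _ = ∑' j, ∑' i, ENNReal.ofReal (‖(star (x j) * X * x i) S.Ω‖ ^ 2) := ENNReal.tsum_comm
    _ = ∑' j, ∑' i, ENNReal.ofReal (‖(star (x i) * star X * x j) S.Ω‖ ^ 2) := by
        refine tsum_congr fun j => tsum_congr fun i => ?_
        obtain ⟨c1, c2, c3⟩ := corner_e hx (i := i) (j := j) hX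
        rw [corner_norm hG c1 c2 c3]
        simp only [star_mul, star_star, mul_assoc]
    _ = ∑' j, ENNReal.ofReal (‖(star X) (x j S.Ω)‖ ^ 2) :=
        tsum_congr fun j => (h2 (star X) j).symm

include hG hx hfr in
/-- the value on `Z Z*` for `Z = Z e` -/
lemma tr_mul_star {Z : H →L[ℂ] H} (hZ : Z ∈ S.rm G) (hZe : Z * S.e G = Z) :
    tr S x (Z * star Z) = ENNReal.ofReal (‖Z S.Ω‖ ^ 2) := by
  have h1 : tr S x (Z * star Z) = tr S x (star (star Z) * star Z) := by rw [star_star]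
  rw [h1, tr_star_mul, ofReal_norm_eq hfr]
  refine tsum_congr fun i => ?_
  have h2 : S.e G * star Z = star Z := by
    have := congrArg star hZe
    rwa [star_mul, S.e_star] at this
  have h3 : (star Z * x i) * S.e G = star Z * x i := by rw [mul_assoc, (hx i).2]
  have h4 : S.e G * (star Z * x i) = star Z * x i := by rw [← mul_assoc, h2]
  have h5 := corner_norm hG (mul_mem (star_mem hZ) (hx i).1) h3 h4
  rw [star_mul, star_star] at h5
  exact congrArg ENNReal.ofReal h5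

include hG hx hfr in
theorem isBar_tr : IsBar S G (tr S x) := by
  have hb : ∀ y, y ∈ S.basic G ↔ y ∈ S.rm G := fun y => by rw [S.basic_eq hG]
  constructor
  · intro a _ b _ ha0 hb0
    unfold tr
    rw [← ENNReal.tsum_add]
    refine tsum_congr fun i => ?_
    rw [← ENNReal.ofReal_add (re_nonneg_of ha0 _) (re_nonneg_of hb0 _), ← Complex.add_re,
      ← inner_add_right]
    rfl
  · intro a _ ha0 c
    unfold tr
    rw [← ENNReal.tsum_mul_left]
    refine tsum_congr fun i => ?_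
    have : (⟪x i S.Ω, ((((c : ℝ) : ℂ) • a) (x i S.Ω))⟫_ℂ).re = c * (⟪x i S.Ω, a (x i S.Ω)⟫_ℂ).re := by
      show (⟪x i S.Ω, ((c : ℝ) : ℂ) • (a (x i S.Ω))⟫_ℂ).re = _
      rw [inner_smul_right, Complex.re_ofReal_mul]
    rw [this, ENNReal.ofReal_mul (NNReal.coe_nonneg c), ENNReal.ofReal_coe_nnreal]
  · intro a ha
    exact tr_trace hG hx hfr ((hb a).1 ha)
  · intro D hD hne hdir y hy hlub
    have hne' : Nonempty D := hne.to_subtype
    refine le_antisymm ?_ ?_
    · unfold tr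
      rw [ENNReal.tsum_eq_iSup_sum]
      refine iSup_le fun s => ?_
      have h1 : ∀ v : H, ENNReal.ofReal (⟪v, y v⟫_ℂ).re ≤
          ⨆ z : D, ENNReal.ofReal (⟪v, (z : H →L[ℂ] H) v⟫_ℂ).re := by
        intro v
        refine (ENNReal.ofReal_le_ofReal
          (lub_tendsto hne hdir (fun z hz => (hD z hz).2) hlub v)).trans ?_
        by_cases htop : (⨆ z : D, ENNReal.ofReal (⟪v, (z : H →L[ℂ] H) v⟫_ℂ).re) = ⊤
        · rw [htop]
          exact le_top
        · refine ENNReal.ofReal_le_of_le_toReal (ciSup_le fun z => ?_)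
          rw [← ENNReal.ofReal_le_iff_le_toReal htop]
          exact le_iSup (fun z : D => ENNReal.ofReal (⟪v, (z : H →L[ℂ] H) v⟫_ℂ).re) z
      calc ∑ i ∈ s, ENNReal.ofReal (⟪x i S.Ω, y (x i S.Ω)⟫_ℂ).re
          ≤ ∑ i ∈ s, ⨆ z : D, ENNReal.ofReal (⟪x i S.Ω, (z : H →L[ℂ] H) (x i S.Ω)⟫_ℂ).re :=
            Finset.sum_le_sum fun i _ => h1 _
        _ = ⨆ z : D, ∑ i ∈ s, ENNReal.ofReal (⟪x i S.Ω, (z : H →L[ℂ] H) (x i S.Ω)⟫_ℂ).re := by
            refine ENNReal.finsetSum_iSup fun a b => ?_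
            obtain ⟨c, hc, hac, hbc⟩ := hdir a a.2 b b.2
            exact ⟨⟨c, hc⟩, fun i => ⟨ENNReal.ofReal_le_ofReal (re_of_le hac _),
              ENNReal.ofReal_le_ofReal (re_of_le hbc _)⟩⟩
        _ ≤ ⨆ z ∈ D, ∑' i, ENNReal.ofReal (⟪x i S.Ω, z (x i S.Ω)⟫_ℂ).re := by
            refine iSup_le fun z => ?_
            refine le_trans (ENNReal.sum_le_tsum s) ?_
            exact le_iSup₂ (f := fun (z : H →L[ℂ] H) (_ : z ∈ D) =>
              ∑' i, ENNReal.ofReal (⟪x i S.Ω, z (x i S.Ω)⟫_ℂ).re) (z : H →L[ℂ] H) z.2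
    · refine iSup₂_le fun z hz => ?_
      unfold tr
      exact ENNReal.tsum_le_tsum fun i => ENNReal.ofReal_le_ofReal (re_of_le (hlub.1 hz) _)
  · -- faithful
    intro T hT hT0 hzero
    obtain ⟨W, hW0, hWW, hWc⟩ := exists_sqrt T hT0
    have hWs : star W = W := star_of_nonneg hW0
    have hWG : W ∈ S.rm G := by
      refine mem_of_comm _ fun y hy => ?_
      have h1 : T * y = y * T := mem_comm.1 hy T ((hb T).1 hT)
      exact (hWc y h1).symm
    have h1 : T = star W * W := by rw [hWs, hWW]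
    rw [h1, tr_star_mul, ENNReal.tsum_eq_zero] at hzero
    have h2 : ∀ i, (W * x i) S.Ω = 0 := by
      intro i
      have h3 := hzero i
      rw [ENNReal.ofReal_eq_zero] at h3
      have h4 : ‖W (x i S.Ω)‖ = 0 := by
        have := norm_nonneg (W (x i S.Ω))
        nlinarith
      exact norm_eq_zero.1 h4
    have h5 : ∀ i, W * x i = 0 := by
      intro i
      have h6 : W * x i = (W * x i) * S.e G := by rw [mul_assoc, (hx i).2]
      ext v
      rw [h6]
      show (W * x i) (S.e G v) = (0 : H →L[ℂ] H) v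
      have h7 : (W * x i) (S.e G v) = (0 : H →L[ℂ] H) (S.e G v) := by
        refine gen_eqOn ?_ (sp_mem (S.sp G) v)
        rintro _ ⟨g, hg, rfl⟩
        have h8 : g S.Ω = S.jj (star g) S.Ω := by
          rw [S.jj_A_Ω (star_mem (hG g hg)), star_star]
        rw [h8]
        have h9 : (W * x i) (S.jj (star g) S.Ω) = S.jj (star g) ((W * x i) S.Ω) :=
          (DFunLike.congr_fun ((S.mem_rm.1 (mul_mem hWG (hx i).1)) _ (star_mem hg)) S.Ω).symm
        rw [h9, h2 i, map_zero]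
        rfl
      rw [h7]
      rfl
    have h10 : W = 0 := by
      ext ζ
      have h11 := hfr (W ζ)
      have h12 : (fun i => ‖star (x i) (W ζ)‖ ^ 2) = fun i => (0 : ℝ) := by
        funext i
        have h13 : star (x i) * W = 0 := by
          have := congrArg star (h5 i)
          rwa [star_mul, hWs, star_zero] at this
        have h14 : star (x i) (W ζ) = (star (x i) * W) ζ := rfl
        rw [h14, h13]
        simp
      rw [h12] at h11
      have h15 := h11.unique hasSum_zero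
      have h16 : ‖W ζ‖ = 0 := by
        have := norm_nonneg (W ζ)
        nlinarith
      exact norm_eq_zero.1 h16
    rw [h1, h10, mul_zero]
  · -- semifinite
    intro T hT hT0 hTne
    obtain ⟨W, hW0, hWW, hWc⟩ := exists_sqrt T hT0
    have hWs : star W = W := star_of_nonneg hW0
    have hWG : W ∈ S.rm G := by
      refine mem_of_comm _ fun y hy => ?_
      have h1 : T * y = y * T := mem_comm.1 hy T ((hb T).1 hT)
      exact (hWc y h1).symm
    obtain ⟨i, hi⟩ : ∃ i, W * x i ≠ 0 := by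
      by_contra hcon
      push Not at hcon
      apply hTne
      have h10 : W = 0 := by
        ext ζ
        have h11 := hfr (W ζ)
        have h12 : (fun i => ‖star (x i) (W ζ)‖ ^ 2) = fun i => (0 : ℝ) := by
          funext i
          have h13 : star (x i) * W = 0 := by
            have := congrArg star (hcon i)
            rwa [star_mul, hWs, star_zero] at this
          have h14 : star (x i) (W ζ) = (star (x i) * W) ζ := rfl
          rw [h14, h13]
          simp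
        rw [h12] at h11
        have h15 := h11.unique hasSum_zero
        have h16 : ‖W ζ‖ = 0 := by
          have := norm_nonneg (W ζ)
          nlinarith
        exact norm_eq_zero.1 h16
      rw [← hWW, h10, mul_zero]
    have hm : W * x i ∈ S.rm G := mul_mem hWG (hx i).1
    refine ⟨(W * x i) * star (W * x i), (hb _).2 (mul_mem hm (star_mem hm)), mul_star_self_nonneg _,
      ?_, ?_, ?_⟩
    · rw [← hWW, le_iff_re (by rw [star_mul, star_star]) (by rw [star_mul, hWs])]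
      intro v
      have e1 : (⟪v, ((W * x i) * star (W * x i)) v⟫_ℂ).re = ‖star (x i) (W v)‖ ^ 2 := by
        have := norm_sq_re (star (W * x i)) v
        rw [star_star] at this
        rw [← this, star_mul, hWs]
        rfl
      have e2 : (⟪v, (W * W) v⟫_ℂ).re = ‖W v‖ ^ 2 := by
        rw [norm_sq_re, hWs]
      rw [e1, e2]
      exact le_hasSum (hfr (W v)) i fun j _ => by positivity
    · intro h0
      exact hi ((CStarRing.mul_star_self_eq_zero_iff _).1 h0)
    · rw [tr_mul_star hG hx hfr hm (by rw [mul_assoc, (hx i).2])]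
      exact ENNReal.ofReal_lt_top
  · -- bar
    intro a ha
    have h1 : a * S.e G * star a = (a * S.e G) * star (a * S.e G) := by
      rw [star_mul, S.e_star]
      have : a * S.e G * (S.e G * star a) = a * (S.e G * S.e G) * star a := by noncomm_ring
      rw [this, S.e_idem]
    rw [h1, tr_mul_star hG hx hfr (mul_mem (S.A_rm hG ha) (S.e_mem_rm hG))
      (by rw [mul_assoc, S.e_idem])]
    congr 1
    have h2 : (a * S.e G) S.Ω = a S.Ω := by
      show a (S.e G S.Ω) = _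
      rw [S.e_Ω]
    rw [h2, norm_sq_re, S.tracial _ (star_mem ha) _ ha]

include hG in
theorem exists_bar : ∃ τ, IsBar S G τ := by
  obtain ⟨ι, x, hx, hfr⟩ := S.exists_frame hG
  exact ⟨tr S x, isBar_tr hG hx hfr⟩

end existence

section uniqueness

variable {S : Sys H} {G : VonNeumannAlgebra H} {τ τ' : (H →L[ℂ] H) → ℝ≥0∞}
variable {ι : Type} {x : ι → (H →L[ℂ] H)}

/-- `τ(W²) = ∑ ‖W x_i Ω‖²` -/
lemma bar_formula' (hG : ∀ x ∈ G, x ∈ S.A) (hτ : IsBar S G τ)
    (hx : ∀ i, x i ∈ S.rm G ∧ x i * S.e G = x i)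
    (hfr : ∀ ζ, HasSum (fun i => ‖star (x i) ζ‖ ^ 2) (‖ζ‖ ^ 2))
    {Q : H →L[ℂ] H} (hQ : Q ∈ S.rm G) (hQs : star Q = Q) :
    τ (Q * Q) = ⨆ s : Finset ι, ∑ i ∈ s, ENNReal.ofReal (‖Q (x i S.Ω)‖ ^ 2) := by
  set F : Finset ι → (H →L[ℂ] H) := fun s => ∑ i ∈ s, (Q * x i) * star (Q * x i) with hF
  have hmem : ∀ i, Q * x i ∈ S.rm G := fun i => mul_mem hQ (hx i).1
  have hstar : ∀ (i : ι) (ζ : H), star (Q * x i) ζ = star (x i) (Q ζ) := by
    intro i ζ
    rw [star_mul, hQs]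
    rfl
  have hQn : ∀ ζ, (⟪ζ, (Q * Q) ζ⟫_ℂ).re = ‖Q ζ‖ ^ 2 := by
    intro ζ
    rw [norm_sq_re, hQs]
  have hQQs : star (Q * Q) = Q * Q := by rw [star_mul, hQs]
  have hlub : IsLUB (Set.range F) (Q * Q) := by
    constructor
    · rintro _ ⟨s, rfl⟩
      rw [le_iff_re (star_sum_mul_star _ _) hQQs]
      intro ζ
      rw [re_sum_mul_star, hQn]
      simp only [hstar]
      exact sum_le_hasSum s (fun i _ => by positivity) (hfr (Q ζ))
    · intro B hB
      have hB0 : 0 ≤ B := by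
        have := hB ⟨∅, rfl⟩
        simpa [hF] using this
      rw [le_iff_re hQQs (star_of_nonneg hB0)]
      intro ζ
      rw [hQn]
      refine hasSum_le_of_sum_le (hfr (Q ζ)) fun s => ?_
      have h1 := re_of_le (hB ⟨s, rfl⟩) ζ
      rw [re_sum_mul_star] at h1
      simpa only [hstar] using h1
  have hpos : ∀ i, 0 ≤ (Q * x i) * star (Q * x i) := fun i => mul_star_self_nonneg _
  have hval : ∀ s, τ (F s) = ∑ i ∈ s, ENNReal.ofReal (‖Q (x i S.Ω)‖ ^ 2) := by
    intro s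
    rw [hF]
    show τ (∑ i ∈ s, (Q * x i) * star (Q * x i)) = _
    rw [bar_sum hG hτ s _ (fun i => mul_mem (hmem i) (star_mem (hmem i))) hpos]
    refine Finset.sum_congr rfl fun i _ => ?_
    rw [← bar_trace hG hτ (hmem i), bar_corner hG hτ (hmem i) (by rw [mul_assoc, (hx i).2])]
    rfl
  have h1 := hτ.normal (Set.range F) (by
    rintro _ ⟨s, rfl⟩
    rw [S.basic_eq hG]
    exact ⟨sum_mem fun i _ => mul_mem (hmem i) (star_mem (hmem i)), Finset.sum_nonneg fun i _ => hpos i⟩)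
    ⟨F ∅, ∅, rfl⟩ (by
      classical
      rintro _ ⟨s, rfl⟩ _ ⟨t, rfl⟩
      refine ⟨F (s ∪ t), ⟨_, rfl⟩, ?_, ?_⟩
      · exact Finset.sum_le_sum_of_subset_of_nonneg Finset.subset_union_left fun i _ _ => hpos i
      · exact Finset.sum_le_sum_of_subset_of_nonneg Finset.subset_union_right fun i _ _ => hpos i)
    (Q * Q) (by rw [S.basic_eq hG]; exact mul_mem hQ hQ) hlub
  rw [h1, iSup_range]
  exact iSup_congr hval

theorem bar_unique (hG : ∀ x ∈ G, x ∈ S.A) (hτ : IsBar S G τ) (hτ' : IsBar S G τ')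
    {T : H →L[ℂ] H} (hT : T ∈ S.basic G) (hT0 : 0 ≤ T) : τ T = τ' T := by
  obtain ⟨ι, x, hx, hfr⟩ := S.exists_frame hG
  rw [S.basic_eq hG] at hT
  obtain ⟨W, hW0, hWW, hWc⟩ := exists_sqrt T hT0
  have hWG : W ∈ S.rm G := by
    refine mem_of_comm _ fun y hy => ?_
    have h1 : T * y = y * T := mem_comm.1 hy T hT
    exact (hWc y h1).symm
  rw [← hWW, bar_formula' hG hτ hx hfr hWG (star_of_nonneg hW0),
    bar_formula' hG hτ' hx hfr hWG (star_of_nonneg hW0)]

end uniqueness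

end Pool.Agent.R298.BC
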