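import Mathlib
import Pool.Agent.R298.BC.Trace

/-!
Right modules generated by sets of vectors, and their dimensions.
-/

set_option autoImplicit false
set_option linter.unusedSectionVars false
set_option linter.unusedVariables false

open scoped InnerProductSpace ENNReal

namespace Pool.Agent.R298.BC

variable {H : Type} [NormedAddCommGroup H] [InnerProductSpace ℂ H] [CompleteSpace H]
variable (S : Sys H)

lemma Sys.jj_add (T R : H →L[ℂ] H) : S.jj (T + R) = S.jj T + S.jj R := by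
  ext v
  show S.J (T (S.J v) + R (S.J v)) = S.J (T (S.J v)) + S.J (R (S.J v))
  rw [map_add]

lemma Sys.jj_smul (c : ℂ) (T : H →L[ℂ] H) : S.jj (c • T) = (starRingEnd ℂ) c • S.jj T := by
  ext v
  show S.J (c • T (S.J v)) = (starRingEnd ℂ) c • S.J (T (S.J v))
  rw [LinearIsometryEquiv.map_smulₛₗ]

lemma Sys.jj_zero : S.jj 0 = 0 := by
  ext v
  show S.J 0 = 0
  rw [map_zero]

/-- the closed right `G`-module generated by `D` -/
def Sys.mg (G : VonNeumannAlgebra H) (D : Set H) : Submodule ℂ H :=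
  gen {v | ∃ g ∈ G, ∃ w ∈ D, S.jj g w = v}

noncomputable instance (G : VonNeumannAlgebra H) (D : Set H) : (S.mg G D).HasOrthogonalProjection :=
  inferInstanceAs ((gen {v | ∃ g ∈ G, ∃ w ∈ D, S.jj g w = v}).HasOrthogonalProjection)

variable {G : VonNeumannAlgebra H}

lemma Sys.mg_closed (D : Set H) : IsClosed (S.mg G D : Set H) := isClosed_gen _

lemma Sys.mem_mg {D : Set H} {g : H →L[ℂ] H} (hg : g ∈ G) {w : H} (hw : w ∈ D) :
    S.jj g w ∈ S.mg G D := subset_gen ⟨g, hg, w, hw, rfl⟩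

lemma Sys.self_mg {D : Set H} {w : H} (hw : w ∈ D) : w ∈ S.mg G D := by
  have := S.mem_mg (one_mem G) hw
  rwa [S.jj_one] at this

lemma Sys.mg_inv {D : Set H} {g : H →L[ℂ] H} (hg : g ∈ G) {v : H} (hv : v ∈ S.mg G D) :
    S.jj g v ∈ S.mg G D := by
  refine gen_maps (isClosed_gen _) (S.jj g) ?_ hv
  rintro _ ⟨f, hf, w, hw, rfl⟩
  have := S.mem_mg (G := G) (mul_mem hg hf) hw
  rwa [S.jj_mul] at this

lemma Sys.mg_le {D : Set H} {K : Submodule ℂ H} (hK : IsClosed (K : Set H))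
    (hinv : ∀ g ∈ G, ∀ v ∈ K, S.jj g v ∈ K) (hD : ∀ v ∈ D, v ∈ K) : S.mg G D ≤ K := by
  refine gen_le hK ?_
  rintro _ ⟨g, hg, w, hw, rfl⟩
  exact hinv g hg w (hD w hw)

lemma Sys.mg_mono {D E : Set H} (h : ∀ v ∈ D, v ∈ S.mg G E) : S.mg G D ≤ S.mg G E :=
  S.mg_le (S.mg_closed E) (fun g hg v hv => S.mg_inv hg hv) h

lemma Sys.proj_rm (K : Submodule ℂ H) [K.HasOrthogonalProjection]
    (hK : ∀ g ∈ G, ∀ v ∈ K, S.jj g v ∈ K) : K.starProjection ∈ S.rm G := by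
  rw [S.mem_rm]
  intro g hg
  refine (sp_comm K (S.jj g) (hK g hg) fun v hv => ?_).symm
  rw [S.jj_star]
  exact hK _ (star_mem hg) v hv

lemma Sys.mg_rm (D : Set H) : (S.mg G D).starProjection ∈ S.rm G :=
  S.proj_rm _ fun g hg v hv => S.mg_inv hg hv

/-- the algebraic cyclic module `{J g J ξ}` -/
def Sys.alg (G : VonNeumannAlgebra H) (ξ : H) : Submodule ℂ H where
  carrier := {v | ∃ g ∈ G, S.jj g ξ = v}
  add_mem' := by
    rintro _ _ ⟨g, hg, rfl⟩ ⟨h, hh, rfl⟩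
    exact ⟨g + h, add_mem hg hh, by rw [S.jj_add]; rfl⟩
  zero_mem' := ⟨0, zero_mem _, by rw [S.jj_zero]; rfl⟩
  smul_mem' := by
    rintro c _ ⟨g, hg, rfl⟩
    refine ⟨(starRingEnd ℂ) c • g, vn_smul _ hg, ?_⟩
    rw [S.jj_smul, Complex.conj_conj]
    rfl

lemma Sys.mg_singleton_approx {ξ v : H} (hv : v ∈ S.mg G {ξ}) (ε : ℝ) (hε : 0 < ε) :
    ∃ g ∈ G, ‖v - S.jj g ξ‖ ≤ ε := by
  have h1 : v ∈ closure (S.alg G ξ : Set H) := by
    have h2 : S.mg G {ξ} ≤ (S.alg G ξ).topologicalClosure := by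
      refine gen_le (Submodule.isClosed_topologicalClosure _) ?_
      rintro _ ⟨g, hg, w, hw, rfl⟩
      rw [Set.mem_singleton_iff.1 hw]
      exact Submodule.le_topologicalClosure _ ⟨g, hg, rfl⟩
    exact h2 hv
  obtain ⟨_, ⟨g, hg, rfl⟩, h2⟩ := Metric.mem_closure_iff.1 h1 ε hε
  refine ⟨g, hg, ?_⟩
  rw [dist_eq_norm] at h2
  exact h2.le

section tr

variable {S} {τ : (H →L[ℂ] H) → ℝ≥0∞} (hG : ∀ x ∈ G, x ∈ S.A) (hτ : IsBar S G τ)

include hG hτ in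
/-- (Lemma L) -/
lemma compare_vec {ξ η : H} (h : ∀ ε : ℝ, 0 < ε → ∃ T ∈ S.rm G, ‖η - T ξ‖ ≤ ε) :
    τ (S.mg G {η}).starProjection ≤ τ (S.mg G {ξ}).starProjection := by
  classical
  refine bar_compare hG hτ (S.mg_rm _) (sp_star _) (sp_idem _) (S.mg_rm _) (sp_star _) (sp_idem _) ?_
  intro t ht ε hε
  have h1 : ∀ ζ : H, ∃ g ∈ G, ζ ∈ t → ‖ζ - S.jj g η‖ ≤ ε / 2 := by
    intro ζ
    by_cases hζ : ζ ∈ t
    · have h2 : ζ ∈ S.mg G {η} := by
        rw [← ht ζ hζ]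
        exact sp_mem _ _
      obtain ⟨g, hg, hg2⟩ := S.mg_singleton_approx h2 (ε / 2) (by positivity)
      exact ⟨g, hg, fun _ => hg2⟩
    · exact ⟨0, zero_mem _, fun h => absurd h hζ⟩
  choose g hg hgζ using h1
  set C : ℝ := 1 + ∑ ζ ∈ t, ‖S.jj (g ζ)‖ with hC
  have hC0 : 0 < C := by
    have : 0 ≤ ∑ ζ ∈ t, ‖S.jj (g ζ)‖ := Finset.sum_nonneg fun i _ => norm_nonneg _
    linarith
  obtain ⟨T, hT, hTη⟩ := h (ε / (2 * C)) (by positivity)
  refine ⟨T, hT, fun ζ hζ => ⟨S.jj (g ζ) ξ, ?_⟩⟩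
  rw [sp_of_mem (S.mem_mg (hg ζ) (Set.mem_singleton ξ))]
  have h2 : T (S.jj (g ζ) ξ) = S.jj (g ζ) (T ξ) :=
    (DFunLike.congr_fun ((S.mem_rm.1 hT) _ (hg ζ)) ξ).symm
  rw [h2]
  have h3 : ζ - S.jj (g ζ) (T ξ) = (ζ - S.jj (g ζ) η) + S.jj (g ζ) (η - T ξ) := by
    rw [map_sub]
    abel
  rw [h3]
  refine (norm_add_le _ _).trans ?_
  have h4 : ‖S.jj (g ζ) (η - T ξ)‖ ≤ ε / 2 := by
    refine ((S.jj (g ζ)).le_opNorm _).trans ?_
    have h5 : ‖S.jj (g ζ)‖ ≤ C := by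
      have := Finset.single_le_sum (f := fun ζ => ‖S.jj (g ζ)‖) (fun i _ => norm_nonneg _) hζ
      linarith
    calc ‖S.jj (g ζ)‖ * ‖η - T ξ‖ ≤ C * (ε / (2 * C)) := by gcongr
      _ = ε / 2 := by field_simp
  have := hgζ ζ hζ
  linarith

include hG hτ in
/-- the image of a module under a module map -/
lemma compare_map {T : H →L[ℂ] H} (hT : T ∈ S.rm G) (K : Submodule ℂ H) [K.HasOrthogonalProjection]
    (hK : ∀ g ∈ G, ∀ v ∈ K, S.jj g v ∈ K) (W : Submodule ℂ H) [W.HasOrthogonalProjection]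
    (hW : ∀ g ∈ G, ∀ v ∈ W, S.jj g v ∈ W)
    (h : ∀ w ∈ W, ∀ ε : ℝ, 0 < ε → ∃ v ∈ K, ‖w - T v‖ ≤ ε) :
    τ W.starProjection ≤ τ K.starProjection := by
  refine bar_compare hG hτ (S.proj_rm K hK) (sp_star _) (sp_idem _) (S.proj_rm W hW) (sp_star _)
    (sp_idem _) ?_
  intro t ht ε hε
  refine ⟨T, hT, fun ζ hζ => ?_⟩
  obtain ⟨v, hv, h1⟩ := h ζ (by rw [← ht ζ hζ]; exact sp_mem _ _) ε hε
  exact ⟨v, by rwa [sp_of_mem hv]⟩

include hG hτ in
/-- the module generated by `p Ω`, `p ∈ G` a projection -/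
lemma bar_pΩ {p : H →L[ℂ] H} (hp : p ∈ G) (hps : star p = p) (hpp : p * p = p) :
    τ (S.mg G {p S.Ω}).starProjection = ENNReal.ofReal (⟪S.Ω, (p * star p) S.Ω⟫_ℂ).re := by
  rw [← hτ.bar p (hG p hp)]
  congr 1
  have hcomm : p * S.e G * star p = p * S.e G := by
    rw [hps, mul_assoc, S.e_comm hp, ← mul_assoc, hpp]
  rw [hcomm]
  ext v
  have h1 : ∀ w ∈ S.sp G, p w ∈ S.mg G {p S.Ω} := by
    intro w hw
    refine gen_maps (S.mg_closed _) p ?_ hw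
    rintro _ ⟨f, hf, rfl⟩
    have h2 : p (f S.Ω) = S.jj (star f) (p S.Ω) := by
      have h3 : f S.Ω = S.jj (star f) S.Ω := by
        rw [S.jj_A_Ω (star_mem (hG f hf)), star_star]
      rw [h3]
      exact (DFunLike.congr_fun (S.jj_comm (star_mem (hG f hf)) (hG p hp)) S.Ω).symm
    rw [h2]
    exact S.mem_mg (star_mem hf) rfl
  refine Submodule.eq_starProjection_of_mem_of_inner_eq_zero (h1 _ (sp_mem _ v)) fun w hw => ?_
  rw [inner_eq_zero_symm]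
  refine gen_orth ?_ hw
  rintro _ ⟨f, hf, w, hw, rfl⟩
  rw [Set.mem_singleton_iff.1 hw]
  have h3 : S.jj f (p S.Ω) = p (S.jj f S.Ω) := DFunLike.congr_fun (S.jj_comm (hG f hf) (hG p hp)) S.Ω
  rw [h3, inner_star, hps]
  have h4 : p (v - p (S.e G v)) = p (v - S.e G v) := by
    rw [map_sub, map_sub]
    congr 1
    show (p * p) (S.e G v) = _
    rw [hpp]
  have h5 : ⟪S.jj f S.Ω, p (v - p (S.e G v))⟫_ℂ = 0 := by
    rw [h4, inner_star', hps]
    refine Submodule.inner_right_of_mem_orthogonal (K := S.sp G) ?_ (sub_sp_mem v)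
    exact S.sp_inv hp (S.sp_jj hG hf S.Ω_sp)
  exact h5

end tr

end Pool.Agent.R298.BC
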