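import Mathlib
import Pool.Agent.R298.BC.Mod

/-!
`dim_G (closed span of V G) ≤ dim_F V`.
-/

set_option autoImplicit false
set_option linter.unusedSectionVars false
set_option linter.unusedVariables false

open scoped InnerProductSpace ENNReal

namespace Pool.Agent.R298.BC

variable {H : Type} [NormedAddCommGroup H] [InnerProductSpace ℂ H] [CompleteSpace H]
variable {S : Sys H} {F G : VonNeumannAlgebra H} {τF τG : (H →L[ℂ] H) → ℝ≥0∞}

lemma rm_anti (hFG : ∀ x ∈ F, x ∈ G) {T : H →L[ℂ] H} (hT : T ∈ S.rm G) : T ∈ S.rm F := by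
  rw [S.mem_rm] at hT ⊢
  exact fun g hg => hT g (hFG g hg)

/-- the subspace `(J F J)' ξ` -/
def rmalg (S : Sys H) (F : VonNeumannAlgebra H) (ξ : H) : Submodule ℂ H where
  carrier := {v | ∃ T ∈ S.rm F, T ξ = v}
  add_mem' := by
    rintro _ _ ⟨g, hg, rfl⟩ ⟨h, hh, rfl⟩
    exact ⟨g + h, add_mem hg hh, rfl⟩
  zero_mem' := ⟨0, zero_mem _, rfl⟩
  smul_mem' := by
    rintro c _ ⟨g, hg, rfl⟩
    exact ⟨c • g, vn_smul _ hg, rfl⟩

/-- `dim_G [ξ G] ≤ dim_F [ξ F]` -/
theorem dim_vec (hFG : ∀ x ∈ F, x ∈ G) (hG : ∀ x ∈ G, x ∈ S.A) (hτF : IsBar S F τF)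
    (hτG : IsBar S G τG) (ξ : H) :
    τG (S.mg G {ξ}).starProjection ≤ τF (S.mg F {ξ}).starProjection := by
  have hF : ∀ x ∈ F, x ∈ S.A := fun x hx => hG x (hFG x hx)
  set L : Submodule ℂ H := gen {v | ∃ T ∈ S.rm F, T ξ = v} with hL
  have hLinv : ∀ T ∈ S.rm F, ∀ v ∈ L, T v ∈ L := by
    intro T hT v hv
    refine gen_maps (isClosed_gen _) T ?_ hv
    rintro _ ⟨R, hR, rfl⟩
    exact subset_gen ⟨T * R, mul_mem hT hR, rfl⟩
  have hLcomm : ∀ T ∈ S.rm F, L.starProjection * T = T * L.starProjection := fun T hT =>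
    sp_comm L T (hLinv T hT) (hLinv _ (star_mem hT))
  set p : H →L[ℂ] H := S.jj L.starProjection with hp
  have hpF : p ∈ F := by
    refine mem_of_comm F fun y hy => ?_
    have h1 : S.jj y ∈ S.rm F := by
      rw [S.mem_rm]
      intro g hg
      rw [← S.jj_mul, ← S.jj_mul, mem_comm.1 hy g hg]
    have h2 := congrArg S.jj (hLcomm _ h1)
    rw [S.jj_mul, S.jj_mul, S.jj_jj] at h2
    exact h2.symm
  have hps : star p = p := by rw [hp, S.jj_star, sp_star]
  have hpp : p * p = p := by rw [hp, ← S.jj_mul, sp_idem]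
  have hjp : S.jj p = L.starProjection := by rw [hp, S.jj_jj]
  have hpΩ : p S.Ω = L.starProjection S.Ω := by
    rw [← hjp, S.jj_A_Ω (hF p hpF), hps]
  have hξL : L.starProjection ξ = ξ := sp_of_mem (subset_gen ⟨1, one_mem _, rfl⟩)
  -- first comparison
  have c1 : τF (S.mg F {p S.Ω}).starProjection ≤ τF (S.mg F {ξ}).starProjection := by
    refine compare_vec hF hτF fun ε hε => ?_
    have h1 : p S.Ω ∈ closure {v | ∃ T ∈ S.rm F, T ξ = v} := by
      rw [← mem_gen_iff (rmalg S F ξ) {v | ∃ T ∈ S.rm F, T ξ = v} rfl, hpΩ]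
      exact sp_mem L _
    obtain ⟨_, ⟨T, hT, rfl⟩, h2⟩ := Metric.mem_closure_iff.1 h1 ε hε
    rw [dist_eq_norm] at h2
    exact ⟨T, hT, h2.le⟩
  have c2 : τG (S.mg G {ξ}).starProjection ≤ τG (S.mg G {p S.Ω}).starProjection := by
    refine compare_vec hG hτG fun ε hε => ?_
    obtain ⟨_, ⟨a, ha, rfl⟩, h2⟩ := Metric.mem_closure_iff.1 (S.cyclic ξ) ε hε
    refine ⟨a, S.A_rm hG ha, ?_⟩
    have h3 : a (p S.Ω) = L.starProjection (a S.Ω) := by
      rw [← hjp]
      have h4 : S.jj p (a S.Ω) = a (S.jj p S.Ω) :=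
        DFunLike.congr_fun (S.jj_comm (hF p hpF) ha) S.Ω
      rw [h4, S.jj_A_Ω (hF p hpF), hps]
    have h5 : ξ - L.starProjection (a S.Ω) = L.starProjection (ξ - a S.Ω) := by
      rw [map_sub, hξL]
    rw [h3, h5]
    refine (L.starProjection.le_opNorm _).trans ?_
    rw [dist_eq_norm] at h2
    calc ‖L.starProjection‖ * ‖ξ - a S.Ω‖ ≤ 1 * ε := by
          gcongr
          exact Submodule.starProjection_norm_le _
      _ = ε := one_mul _
  rw [bar_pΩ hF hτF hpF hps hpp] at c1
  rw [bar_pΩ hG hτG (hFG p hpF) hps hpp] at c2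
  exact c2.trans c1

/-- the step for finitely many vectors -/
theorem dim_fin (hFG : ∀ x ∈ F, x ∈ G) (hG : ∀ x ∈ G, x ∈ S.A) (hτF : IsBar S F τF)
    (hτG : IsBar S G τG) (s : Finset H) :
    τG (S.mg G s).starProjection ≤ τF (S.mg F s).starProjection := by
  classical
  have hF : ∀ x ∈ F, x ∈ S.A := fun x hx => hG x (hFG x hx)
  induction s using Finset.induction_on with
  | empty =>
    have h1 : (S.mg G ((∅ : Finset H) : Set H)).starProjection = 0 := by
      ext v
      refine sp_zero_of_orth ?_
      have : S.mg G ((∅ : Finset H) : Set H) ≤ ⊥ := by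
        refine gen_le (by simp) ?_
        rintro _ ⟨g, hg, w, hw, rfl⟩
        simp at hw
      rw [Submodule.mem_orthogonal]
      intro u hu
      have := this hu
      rw [Submodule.mem_bot] at this
      rw [this, inner_zero_left]
    rw [h1, bar_zero hG hτG]
    exact zero_le
  | insert v s hvs ih =>
    set V : Submodule ℂ H := S.mg F s with hV
    set V1 : Submodule ℂ H := S.mg F (insert v s : Finset H) with hV1
    set W : Submodule ℂ H := S.mg G s with hW
    set W1 : Submodule ℂ H := S.mg G (insert v s : Finset H) with hW1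
    have hVinv : ∀ g ∈ F, ∀ x ∈ V, S.jj g x ∈ V := fun g hg x hx => S.mg_inv hg hx
    have hWinv : ∀ g ∈ G, ∀ x ∈ W, S.jj g x ∈ W := fun g hg x hx => S.mg_inv hg hx
    have hVV1 : V ≤ V1 := S.mg_mono fun x hx => S.self_mg (by simp; exact Or.inr hx)
    have hWW1 : W ≤ W1 := S.mg_mono fun x hx => S.self_mg (by simp; exact Or.inr hx)
    have hVW : V ≤ W := S.mg_le (S.mg_closed _) (fun g hg x hx => S.mg_inv (hFG g hg) hx)
      fun x hx => S.self_mg hx
    have hvV1 : v ∈ V1 := S.self_mg (by simp)
    have hvW1 : v ∈ W1 := S.self_mg (by simp)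
    set v' : H := v - V.starProjection v with hv'
    have hv'V1 : v' ∈ V1 := sub_mem hvV1 (hVV1 (sp_mem V v))
    have hv'orth : v' ∈ Vᗮ := sub_sp_mem v
    set X : Submodule ℂ H := S.mg F {v'} with hX
    set Y : Submodule ℂ H := S.mg G {v'} with hY
    have hXV1 : X ≤ V1 := S.mg_mono fun x hx => by rw [Set.mem_singleton_iff.1 hx]; exact hv'V1
    have hXorth : X ≤ Vᗮ := by
      refine S.mg_le (Submodule.isClosed_orthogonal _) ?_ ?_
      · intro g hg x hx
        rw [Submodule.mem_orthogonal] at hx ⊢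
        intro u hu
        rw [inner_star', S.jj_star]
        exact hx _ (hVinv _ (star_mem hg) u hu)
      · intro x hx
        rw [Set.mem_singleton_iff.1 hx]
        exact hv'orth
    -- lower bound for the `F` side
    have f1 : τF V.starProjection + τF X.starProjection ≤ τF V1.starProjection := by
      rw [← bar_add hF hτF (S.mg_rm _) (S.mg_rm _) (sp_nonneg _) (sp_nonneg _)]
      refine bar_mono hF hτF (add_mem (S.mg_rm _) (S.mg_rm _)) (S.mg_rm _)
        (add_nonneg (sp_nonneg _) (sp_nonneg _)) ?_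
      rw [le_iff_re (by rw [star_add, sp_star, sp_star]) (sp_star _)]
      intro u
      have e1 : ∀ (K : Submodule ℂ H) [K.HasOrthogonalProjection], (⟪u, K.starProjection u⟫_ℂ).re =
          ‖K.starProjection u‖ ^ 2 := by
        intro K _
        rw [norm_sq_re, sp_star, sp_idem]
      have e2 : ((V.starProjection + X.starProjection : H →L[ℂ] H) u) =
          V.starProjection u + X.starProjection u := rfl
      rw [e2, inner_add_right, Complex.add_re, e1, e1, e1]
      have e3 : ⟪V.starProjection u, X.starProjection u⟫_ℂ = 0 :=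
        Submodule.inner_right_of_mem_orthogonal (sp_mem V u) (hXorth (sp_mem X u))
      have e4 : ‖V.starProjection u‖ ^ 2 + ‖X.starProjection u‖ ^ 2 =
          ‖V.starProjection u + X.starProjection u‖ ^ 2 := by
        rw [sq, sq, sq, norm_add_sq_eq_norm_sq_add_norm_sq_of_inner_eq_zero _ _ e3]
      rw [e4]
      set z : H := V.starProjection u + X.starProjection u with hz
      have hzV1 : z ∈ V1 := add_mem (hVV1 (sp_mem V u)) (hXV1 (sp_mem X u))
      have e5 : ‖z‖ ^ 2 = (⟪z, V1.starProjection u⟫_ℂ).re := by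
        have e6 : ⟪z, V1.starProjection u⟫_ℂ = ⟪z, u⟫_ℂ := by
          rw [inner_star', sp_star, sp_of_mem hzV1]
        have e7 : (⟪z, u⟫_ℂ).re = ‖V.starProjection u‖ ^ 2 + ‖X.starProjection u‖ ^ 2 := by
          rw [hz, inner_add_left, Complex.add_re, inner_star, inner_star, sp_star, sp_star, e1, e1]
        rw [e6, e7, e4]
      have e8 : (⟪z, V1.starProjection u⟫_ℂ).re ≤ ‖z‖ * ‖V1.starProjection u‖ :=
        (Complex.re_le_norm _).trans (norm_inner_le_norm _ _)
      have e9 : ‖z‖ ≤ ‖V1.starProjection u‖ := by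
        rcases (norm_nonneg z).eq_or_lt with h0 | h0
        · rw [← h0]; exact norm_nonneg _
        · have : ‖z‖ * ‖z‖ ≤ ‖z‖ * ‖V1.starProjection u‖ := by rw [← sq, e5]; exact e8
          exact le_of_mul_le_mul_left this h0
      exact pow_le_pow_left₀ (norm_nonneg _) e9 2
    -- upper bound for the `G` side
    set Q : H →L[ℂ] H := W1.starProjection - W.starProjection with hQ
    have hWP : W1.starProjection * W.starProjection = W.starProjection := by
      ext x
      exact sp_of_mem (hWW1 (sp_mem W x))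
    have hPW : W.starProjection * W1.starProjection = W.starProjection := by
      have := congrArg star hWP
      rwa [star_mul, sp_star, sp_star] at this
    have hQs : star Q = Q := by rw [hQ, star_sub, sp_star, sp_star]
    have hQQ : Q * Q = Q := by
      rw [hQ, mul_sub, sub_mul, sub_mul, sp_idem, sp_idem, hWP, hPW]
      abel
    have hQrm : Q ∈ S.rm G := sub_mem (S.mg_rm _) (S.mg_rm _)
    have hT : (1 - W.starProjection : H →L[ℂ] H) ∈ S.rm G := sub_mem (one_mem _) (S.mg_rm _)
    have hQW : ∀ x, Q x = x → x ∈ W1 ∧ W.starProjection x = 0 := by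
      intro x hx
      constructor
      · have : W1.starProjection (Q x) = Q x := by
          show (W1.starProjection * Q) x = Q x
          rw [hQ, mul_sub, sp_idem, hWP]
        rw [hx] at this
        rw [← this]
        exact sp_mem _ _
      · have : W.starProjection (Q x) = 0 := by
          show (W.starProjection * Q) x = 0
          rw [hQ, mul_sub, hPW, sp_idem, sub_self]
          rfl
        rwa [hx] at this
    have g1 : τG Q ≤ τG Y.starProjection := by
      refine bar_compare hG hτG (S.mg_rm _) (sp_star _) (sp_idem _) hQrm hQs hQQ ?_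
      intro t ht ε hε
      refine ⟨_, hT, fun ζ hζ => ?_⟩
      obtain ⟨hζ1, hζ2⟩ := hQW ζ (ht ζ hζ)
      -- approximate by `u + J g J v'`
      have h1 : W1 ≤ (W ⊔ S.alg G v').topologicalClosure := by
        refine gen_le (Submodule.isClosed_topologicalClosure _) ?_
        rintro _ ⟨g, hg, w, hw, rfl⟩
        refine Submodule.le_topologicalClosure _ ?_
        simp only [Finset.coe_insert, Set.mem_insert_iff] at hw
        rcases hw with rfl | hw
        · have : S.jj g w = S.jj g (V.starProjection w) + S.jj g v' := by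
            rw [← map_add, hv']
            congr 1
            abel
          rw [this]
          exact Submodule.add_mem_sup (hWinv g hg _ (hVW (sp_mem V w))) ⟨g, hg, rfl⟩
        · exact Submodule.mem_sup_left (S.mem_mg hg hw)
      have h2 : ζ ∈ closure ((W ⊔ S.alg G v' : Submodule ℂ H) : Set H) := h1 hζ1
      obtain ⟨z, hz, hz2⟩ := Metric.mem_closure_iff.1 h2 ε hε
      obtain ⟨u, hu, _, ⟨g, hg, rfl⟩, rfl⟩ := Submodule.mem_sup.1 hz
      refine ⟨S.jj g v', ?_⟩
      rw [sp_of_mem (S.mem_mg hg (Set.mem_singleton v'))]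
      have h3 : ∀ y : H, ζ - (1 - W.starProjection : H →L[ℂ] H) y =
          (1 - W.starProjection : H →L[ℂ] H) (ζ - (u + y)) := by
        intro y
        rw [map_sub, map_add]
        show ζ - (y - W.starProjection y) = (ζ - W.starProjection ζ) -
          ((u - W.starProjection u) + (y - W.starProjection y))
        rw [hζ2, sp_of_mem hu]
        abel
      rw [h3]
      have h4 : ‖(1 - W.starProjection : H →L[ℂ] H)‖ ≤ 1 := by
        refine norm_le_one_of_le (P := 1 - W.starProjection) ?_ (sub_le_self _ (sp_nonneg _))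
        rw [star_sub, star_one, sp_star, mul_sub, sub_mul, sub_mul, sp_idem]
        simp
      refine (ContinuousLinearMap.le_opNorm _ _).trans ?_
      rw [dist_eq_norm] at hz2
      calc _ ≤ 1 * ε := by gcongr
        _ = ε := one_mul _
    have g2 : τG W1.starProjection ≤ τG W.starProjection + τG Y.starProjection := by
      have e1 : W1.starProjection = W.starProjection + Q := by rw [hQ]; abel
      have hQ0 : 0 ≤ Q := by
        have := star_mul_self_nonneg Q
        rwa [hQs, hQQ] at this
      rw [e1, bar_add hG hτG (S.mg_rm _) hQrm (sp_nonneg _) hQ0]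
      gcongr
    have g3 : τG Y.starProjection ≤ τF X.starProjection := dim_vec hFG hG hτF hτG v'
    calc τG W1.starProjection ≤ τG W.starProjection + τG Y.starProjection := g2
      _ ≤ τF V.starProjection + τF X.starProjection := by gcongr
      _ ≤ τF V1.starProjection := f1

end Pool.Agent.R298.BC
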