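import Mathlib
import Pool.Agent.R298.BC.Step

/-!
Isometric extensions over intermediate systems.
-/

set_option autoImplicit false
set_option linter.unusedSectionVars false
set_option linter.unusedVariables false

open scoped InnerProductSpace ENNReal

namespace Pool.Agent.R298.BC

variable {H : Type} [NormedAddCommGroup H] [InnerProductSpace ℂ H] [CompleteSpace H]
variable {S : Sys H} {F G : VonNeumannAlgebra H} {τF τG : (H →L[ℂ] H) → ℝ≥0∞}

/-- `dim_G [V G] ≤ dim_F V` -/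
theorem dim_mod (hFG : ∀ x ∈ F, x ∈ G) (hG : ∀ x ∈ G, x ∈ S.A) (hτF : IsBar S F τF)
    (hτG : IsBar S G τG) (V : Submodule ℂ H) [V.HasOrthogonalProjection]
    (hVc : IsClosed (V : Set H)) (hV : ∀ g ∈ F, ∀ v ∈ V, S.jj g v ∈ V) :
    τG (S.mg G V).starProjection ≤ τF V.starProjection := by
  classical
  have hF : ∀ x ∈ F, x ∈ S.A := fun x hx => hG x (hFG x hx)
  refine bar_compare' hG hτG (S.mg_rm _) (sp_star _) (sp_idem _) _ ?_
  intro t ht ε hε
  let 𝒟 : Submodule ℂ H :=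
    { carrier := {u | ∃ s : Finset H, (∀ v ∈ s, v ∈ V) ∧ u ∈ S.mg G s}
      add_mem' := by
        rintro a b ⟨s, hs, ha⟩ ⟨r, hr, hb⟩
        refine ⟨s ∪ r, ?_, ?_⟩
        · intro v hv
          rcases Finset.mem_union.1 hv with h | h
          · exact hs v h
          · exact hr v h
        · refine add_mem (S.mg_mono ?_ ha) (S.mg_mono ?_ hb)
          · intro v hv
            exact S.self_mg (by simp; exact Or.inl hv)
          · intro v hv
            exact S.self_mg (by simp; exact Or.inr hv)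
      zero_mem' := ⟨∅, by simp, zero_mem _⟩
      smul_mem' := by
        rintro c a ⟨s, hs, ha⟩
        exact ⟨s, hs, Submodule.smul_mem _ c ha⟩ }
  have h1 : S.mg G V ≤ 𝒟.topologicalClosure := by
    refine gen_le (Submodule.isClosed_topologicalClosure _) ?_
    rintro _ ⟨g, hg, w, hw, rfl⟩
    refine Submodule.le_topologicalClosure _ ⟨{w}, ?_, ?_⟩
    · intro v hv
      rw [Finset.mem_singleton.1 hv]
      exact hw
    · exact S.mem_mg hg (by simp)
  have h2 : ∀ ζ : H, ∃ (s : Finset H) (u : H), (∀ v ∈ s, v ∈ V) ∧ u ∈ S.mg G s ∧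
      (ζ ∈ t → ‖ζ - u‖ ≤ ε) := by
    intro ζ
    by_cases hζ : ζ ∈ t
    · have h3 : ζ ∈ S.mg G V := by
        rw [← ht ζ hζ]
        exact sp_mem _ _
      have h4 : ζ ∈ closure (𝒟 : Set H) := h1 h3
      obtain ⟨u, ⟨s, hs, hu⟩, hu2⟩ := Metric.mem_closure_iff.1 h4 ε hε
      rw [dist_eq_norm] at hu2
      exact ⟨s, u, hs, hu, fun _ => hu2.le⟩
    · exact ⟨∅, 0, by simp, zero_mem _, fun h => absurd h hζ⟩
  choose s u hs hu hsu using h2
  set r : Finset H := t.biUnion s with hr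
  refine ⟨(S.mg G r).starProjection, S.mg_rm _, sp_star _, sp_idem _, ?_, 1, one_mem _, ?_⟩
  · refine (dim_fin hFG hG hτF hτG r).trans ?_
    refine bar_mono hF hτF (S.mg_rm _) (S.proj_rm V hV) (sp_nonneg _) ?_
    rw [Submodule.starProjection_le_starProjection_iff]
    refine S.mg_le hVc hV ?_
    intro v hv
    obtain ⟨ζ, -, h5⟩ := Finset.mem_biUnion.1 (Finset.mem_coe.1 hv)
    exact hs ζ v h5
  · intro ζ hζ
    refine ⟨u ζ, ?_⟩
    have h5 : u ζ ∈ S.mg G r := by
      refine S.mg_mono ?_ (hu ζ)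
      intro v hv
      refine S.self_mg ?_
      exact Finset.mem_coe.2 (Finset.mem_biUnion.2 ⟨ζ, hζ, Finset.mem_coe.1 hv⟩)
    rw [sp_of_mem h5]
    exact hsu ζ hζ

section U

variable (S)

lemma Sys.U_A {a : H →L[ℂ] H} (ha : a ∈ S.A) (v : H) : S.U (a v) = S.α a (S.U v) := by
  have h := S.ext_A (f := fun v => S.U (a v)) (g := fun v => S.α a (S.U v)) (by fun_prop)
    (by fun_prop) (fun b hb => by
      have h1 := S.U_spec (a * b) (mul_mem ha hb)
      rw [S.aut.mul a ha b hb] at h1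
      show S.U (a (b S.Ω)) = S.α a (S.U (b S.Ω))
      rw [S.U_spec b hb]
      exact h1)
  exact congrFun h v

lemma Sys.U_J (v : H) : S.U (S.J v) = S.J (S.U v) := by
  have h := S.ext_A (f := fun v => S.U (S.J v)) (g := fun v => S.J (S.U v))
    (S.U.continuous.comp S.J.continuous) (S.J.continuous.comp S.U.continuous) (fun a ha => by
      show S.U (S.J (a S.Ω)) = S.J (S.U (a S.Ω))
      rw [S.J_apply ha, S.U_spec a ha, S.J_apply (S.aut.mem a ha), S.U_spec _ (star_mem ha),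
        S.aut.star_eq a ha])
  exact congrFun h v

lemma Sys.U_jj {a : H →L[ℂ] H} (ha : a ∈ S.A) (v : H) :
    S.U (S.jj a v) = S.jj (S.α a) (S.U v) := by
  rw [S.jj_apply, S.jj_apply, S.U_J, S.U_A ha, S.U_J]

variable {S}

lemma α_mem (hG : IsSub S G) {g : H →L[ℂ] H} (hg : g ∈ G) : S.α g ∈ G := (hG.image _).2 ⟨g, hg, rfl⟩

lemma U_jj' (hG : IsSub S G) {g : H →L[ℂ] H} (hg : g ∈ G) (v : H) :
    S.U (S.jj g v) = S.jj (S.α g) (S.U v) := S.U_jj (hG.le g hg) v

lemma U_symm_jj (hG : IsSub S G) {g : H →L[ℂ] H} (hg : g ∈ G) :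
    ∃ f ∈ G, ∀ v, S.U.symm (S.jj g v) = S.jj f (S.U.symm v) := by
  obtain ⟨f, hf, rfl⟩ := (hG.image g).1 hg
  refine ⟨f, hf, fun v => ?_⟩
  apply S.U.injective
  rw [S.U.apply_symm_apply, U_jj' hG hf, S.U.apply_symm_apply]

lemma gen_maps' {D : Set H} {K : Submodule ℂ H} (hK : IsClosed (K : Set H)) (T : H ≃ₗᵢ[ℂ] H)
    (h : ∀ v ∈ D, T v ∈ K) {v : H} (hv : v ∈ gen D) : T v ∈ K := by
  have h1 : gen D ≤ K.comap (T.toLinearEquiv : H →ₗ[ℂ] H) := gen_le (hK.preimage T.continuous) h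
  exact h1 hv

lemma U_sp (hG : IsSub S G) {v : H} (hv : v ∈ S.sp G) : S.U v ∈ S.sp G := by
  refine gen_maps' (isClosed_gen _) S.U ?_ hv
  rintro _ ⟨g, hg, rfl⟩
  rw [S.U_spec g (hG.le g hg)]
  exact S.sp_gen (α_mem hG hg)

lemma U_symm_sp (hG : IsSub S G) {v : H} (hv : v ∈ S.sp G) : S.U.symm v ∈ S.sp G := by
  refine gen_maps' (isClosed_gen _) S.U.symm ?_ hv
  rintro _ ⟨g, hg, rfl⟩
  obtain ⟨f, hf, rfl⟩ := (hG.image g).1 hg
  have h1 : S.U.symm (S.α f S.Ω) = f S.Ω := by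
    apply S.U.injective
    rw [S.U.apply_symm_apply, S.U_spec f (hG.le f hf)]
  rw [h1]
  exact S.sp_gen hf

lemma U_e (hG : IsSub S G) (v : H) : S.U (S.e G v) = S.e G (S.U v) := by
  symm
  refine Submodule.eq_starProjection_of_mem_of_inner_eq_zero (U_sp hG (sp_mem _ v)) fun w hw => ?_
  have h1 : w = S.U (S.U.symm w) := (S.U.apply_symm_apply w).symm
  rw [← map_sub, h1, S.U.inner_map_map]
  exact Submodule.inner_left_of_mem_orthogonal (U_symm_sp hG hw) (sub_sp_mem v)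

lemma U_symm_e (hG : IsSub S G) (v : H) : S.U.symm (S.e G v) = S.e G (S.U.symm v) := by
  apply S.U.injective
  rw [S.U.apply_symm_apply, U_e hG, S.U.apply_symm_apply]

end U

/-- the image module `(1 - e_G)[V G]` -/
def img (S : Sys H) (G : VonNeumannAlgebra H) (V : Set H) : Submodule ℂ H :=
  gen {w | ∃ u ∈ S.mg G V, u - S.e G u = w}

noncomputable instance (S : Sys H) (G : VonNeumannAlgebra H) (V : Set H) :
    (img S G V).HasOrthogonalProjection :=
  inferInstanceAs ((gen {w | ∃ u ∈ S.mg G V, u - S.e G u = w}).HasOrthogonalProjection)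

lemma isUModule_img (hF : IsSub S F) (hG : IsSub S G) (hFG : ∀ x ∈ F, x ∈ G)
    (hτF : IsBar S F τF) (hτG : IsBar S G τG) (V : ClosedSubmodule ℂ H)
    (hV : IsUModule S F τF V) :
    IsUModule S G τG ⟨img S G (V : Set H), isClosed_gen _⟩ := by
  have hVj : ∀ g ∈ F, ∀ v ∈ V.toSubmodule, S.jj g v ∈ V.toSubmodule := by
    intro g hg v hv
    have := hV.right (star g) (star_mem hg) v hv
    rw [star_star] at this
    exact this
  have hU1 : ∀ v ∈ V, S.U v ∈ V := by
    intro v hv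
    have h1 : S.U v ∈ V.toSubmodule.map (S.U.toLinearEquiv : H →ₗ[ℂ] H) := ⟨v, hv, rfl⟩
    rw [hV.inv] at h1
    exact h1
  have hU2 : ∀ v ∈ V, S.U.symm v ∈ V := by
    intro v hv
    have h1 : v ∈ V.toSubmodule.map (S.U.toLinearEquiv : H →ₗ[ℂ] H) := by
      rw [hV.inv]
      exact hv
    obtain ⟨w, hw, hwv⟩ := h1
    have : S.U.symm v = w := by
      apply S.U.injective
      rw [S.U.apply_symm_apply]
      exact hwv.symm
    rw [this]
    exact hw
  have hW1 : ∀ u ∈ S.mg G (V : Set H), S.U u ∈ S.mg G (V : Set H) := by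
    intro u hu
    refine gen_maps' (isClosed_gen _) S.U ?_ hu
    rintro _ ⟨g, hg, w, hw, rfl⟩
    rw [U_jj' hG hg]
    exact S.mem_mg (α_mem hG hg) (hU1 w hw)
  have hW2 : ∀ u ∈ S.mg G (V : Set H), S.U.symm u ∈ S.mg G (V : Set H) := by
    intro u hu
    refine gen_maps' (isClosed_gen _) S.U.symm ?_ hu
    rintro _ ⟨g, hg, w, hw, rfl⟩
    obtain ⟨f, hf, hfv⟩ := U_symm_jj hG hg
    rw [hfv]
    exact S.mem_mg hf (hU2 w hw)
  have hX1 : ∀ u ∈ img S G (V : Set H), S.U u ∈ img S G (V : Set H) := by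
    intro u hu
    refine gen_maps' (isClosed_gen _) S.U ?_ hu
    rintro _ ⟨w, hw, rfl⟩
    rw [map_sub, U_e hG]
    exact subset_gen ⟨_, hW1 w hw, rfl⟩
  have hX2 : ∀ u ∈ img S G (V : Set H), S.U.symm u ∈ img S G (V : Set H) := by
    intro u hu
    refine gen_maps' (isClosed_gen _) S.U.symm ?_ hu
    rintro _ ⟨w, hw, rfl⟩
    rw [map_sub, U_symm_e hG]
    exact subset_gen ⟨_, hW2 w hw, rfl⟩
  have hXj : ∀ g ∈ G, ∀ v ∈ img S G (V : Set H), S.jj g v ∈ img S G (V : Set H) := by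
    intro g hg v hv
    refine gen_maps (isClosed_gen _) (S.jj g) ?_ hv
    rintro _ ⟨w, hw, rfl⟩
    have h1 : S.jj g (S.e G w) = S.e G (S.jj g w) :=
      (DFunLike.congr_fun (S.e_jj hG.le hg) w).symm
    rw [map_sub, h1]
    exact subset_gen ⟨_, S.mg_inv hg hw, rfl⟩
  refine ⟨?_, ?_, ?_, ?_⟩
  · intro f hf v hv
    exact hXj _ (star_mem hf) v hv
  · refine gen_le (Submodule.isClosed_orthogonal _) ?_
    rintro _ ⟨w, hw, rfl⟩
    exact sub_sp_mem w
  · refine le_antisymm ?_ ?_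
    · rintro _ ⟨v, hv, rfl⟩
      exact hX1 v hv
    · intro v hv
      exact ⟨S.U.symm v, hX2 v hv, S.U.apply_symm_apply v⟩
  · have hT : (1 - S.e G : H →L[ℂ] H) ∈ S.rm G := sub_mem (one_mem _) (S.e_mem_rm hG.le)
    have h1 := compare_map hG.le hτG hT (S.mg G (V : Set H)) (fun g hg v hv => S.mg_inv hg hv)
      (img S G (V : Set H)) hXj (by
        intro w hw ε hε
        have h2 : w ∈ closure {w | ∃ u ∈ S.mg G (V : Set H), u - S.e G u = w} :=
          (mem_gen_iff ((S.mg G (V : Set H)).map ((1 - S.e G : H →L[ℂ] H) : H →ₗ[ℂ] H)) _ rfl).1 hw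
        obtain ⟨_, ⟨u, hu, rfl⟩, h3⟩ := Metric.mem_closure_iff.1 h2 ε hε
        rw [dist_eq_norm] at h3
        exact ⟨u, hu, h3.le⟩)
    have h2 := dim_mod hFG hG.le hτF hτG V.toSubmodule V.isClosed' hVj
    exact (h1.trans h2).trans_lt hV.fin

theorem main (hF : IsSub S F) (hG : IsSub S G) (hFG : ∀ x ∈ F, x ∈ G)
    (hτF : IsBar S F τF) (hτG : IsBar S G τG) (hiso : IsometricExt S F τF) :
    IsometricExt S G τG := by
  unfold IsometricExt at hiso ⊢
  refine le_antisymm ?_ ?_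
  · refine Submodule.topologicalClosure_minimal _ ?_ (Submodule.isClosed_orthogonal _)
    exact iSup₂_le fun W hW => hW.orth
  · set E : Submodule ℂ H :=
      (⨆ (V : ClosedSubmodule ℂ H) (_ : IsUModule S G τG V), V.toSubmodule).topologicalClosure with hE
    have hEc : IsClosed (E : Set H) := Submodule.isClosed_topologicalClosure _
    have hcont : IsClosed ((E.comap ((1 - S.e G : H →L[ℂ] H) : H →ₗ[ℂ] H) : Submodule ℂ H) : Set H) :=
      hEc.preimage (1 - S.e G : H →L[ℂ] H).continuous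
    have h1 : (⨆ (V : ClosedSubmodule ℂ H) (_ : IsUModule S F τF V),
        V.toSubmodule).topologicalClosure ≤ E.comap ((1 - S.e G : H →L[ℂ] H) : H →ₗ[ℂ] H) := by
      refine Submodule.topologicalClosure_minimal _ ?_ hcont
      refine iSup₂_le fun V hV v hv => ?_
      show v - S.e G v ∈ E
      refine Submodule.le_topologicalClosure _ ?_
      refine Submodule.mem_iSup_of_mem ⟨img S G (V : Set H), isClosed_gen _⟩ ?_
      refine Submodule.mem_iSup_of_mem (isUModule_img hF hG hFG hτF hτG V hV) ?_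
      exact subset_gen ⟨v, S.self_mg hv, rfl⟩
    intro ζ hζ
    have h2 : ζ ∈ (S.sp F)ᗮ := by
      refine Submodule.orthogonal_le ?_ hζ
      refine gen_le (isClosed_gen _) ?_
      rintro _ ⟨f, hf, rfl⟩
      exact S.sp_gen (hFG f hf)
    rw [← hiso] at h2
    have h3 : ζ - S.e G ζ ∈ E := h1 h2
    have h4 : S.e G ζ = 0 := sp_zero_of_orth hζ
    rwa [h4, sub_zero] at h3

end Pool.Agent.R298.BC
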